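import Pool.Agent.Lib.MP_1b4b80_lc.Loc

/-!
# Critical pairs of two guards and a common direction of ascent
-/

set_option autoImplicit false

noncomputable section

namespace Pool.Agent.Lib.MP_1b4b80_lc

open Set Filter Topology

variable {P : Set Pt} {E : Set (Pt × Pt)}

theorem sg_pp {σ x y : ℝ} (hx : 0 < σ * x) (hy : 0 < σ * y) : 0 < x * y := by
  by_contra h
  push Not at h
  nlinarith [mul_pos hx hy, mul_nonneg (mul_self_nonneg σ) (neg_nonneg.2 h)]

theorem sg_pn {σ x y : ℝ} (hx : 0 < σ * x) (hy : σ * y < 0) : x * y < 0 := by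
  have := sg_pp hx (y := -y) (by linarith)
  linarith

/-- The corner that a guard sees past is seen by the other guard. -/
theorem sees_corner (G : Gal P E) {A B u Q r : Pt} {σ l : ℝ} (hσ : σ ≠ 0)
    (cov : ∀ z ∈ frontier P, Sees P A z ∨ Sees P B z) (h : Mov P E A u Q r σ l) :
    Sees P B r := by
  have key : ∀ w1 w2, (r, w1) ∈ E → (r, w2) ∈ E → σ * det (w1 - r) (w2 - r) < 0 →
      Sees P B r := by
    intro w1 w2 h1 h2 h3
    have s1 := h.side _ h1
    have s2 := h.side _ h2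
    have h4 : ∀ᶠ t in 𝓝 (0 : ℝ), 0 < σ * ori A (ln r (w2 - r) t) w1 := by
      refine ev_pos (φ := fun t => σ * ori A (ln r (w2 - r) t) w1) (by fun_prop) ?_
      have : ori A (ln r (w2 - r) 0) w1 = l * ori A Q w1 := by
        rw [h.hr]; simp [ori, det, ln]; ring
      simp only [this]
      nlinarith [mul_pos h.l0 s1]
    have h5 : ∀ᶠ t in 𝓝[>] (0 : ℝ), Sees P B (ln r (w2 - r) t) := by
      filter_upwards [nhdsWithin_le_nhds h4, Ioo_mem_nhdsGT (zero_lt_one' ℝ)] with t h6 h7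
      refine (cov _ ((G.fr _).2 ⟨_, h2, ln_mem ⟨h7.1.le, h7.2.le⟩⟩)).resolve_left
        (G.cross h1 ?_ ?_)
      · have : ori A (ln r (w2 - r) t) r = -(t * l * ori A Q w2) := by
          rw [h.hr]; simp [ori, det, ln]; ring
        rw [this]
        nlinarith [mul_pos (mul_pos h7.1 h.l0) (sg_pp s2 h6)]
      · have e1 : ori r w1 A = l * ori A Q w1 := by
          rw [h.hr]; simp [ori, det]; ring
        have e2 : ori r w1 (ln r (w2 - r) t) = t * det (w1 - r) (w2 - r) := by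
          simp [ori, det, ln]; ring
        rw [e1, e2]
        nlinarith [mul_pos (mul_pos h7.1 h.l0) (neg_pos.2 (sg_pn s1 h3))]
    have h6 := (closed_sees G.cl (a := fun _ : ℝ => B) (b := fun t => ln r (w2 - r) t)
      continuous_const (by fun_prop)).mem_of_tendsto
      (tendsto_id.mono_left nhdsWithin_le_nhds) h5
    simpa [ln] using h6
  obtain ⟨w, hw⟩ := h.vx
  obtain ⟨w1, w2, h1, h2, h3⟩ := G.deg _ _ hw
  have h4 : det (w1 - r) (w2 - r) ≠ 0 := by
    intro h4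
    have n1 : w1 - r ≠ 0 := sub_ne_zero.2 (G.ne _ _ h1).symm
    obtain ⟨t, ht⟩ := par n1 h4
    have h5 : ori A Q w2 = t * ori A Q w1 := by
      have : w2 = r + t • (w1 - r) := by rw [← ht]; abel
      rw [this, h.hr]; simp [ori, det]; ring
    have t0 : 0 < t := by
      have s1 := h.side _ h1
      have s2 := h.side _ h2
      rw [h5] at s2
      by_contra h6
      push Not at h6
      nlinarith [mul_nonneg (neg_nonneg.2 h6) s1.le]
    have m0 : 0 < min t 1 := lt_min t0 zero_lt_one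
    have h6 := h3 (r + min t 1 • (w1 - r)) (mem_seg.2 ⟨_, m0.le, min_le_right _ _, rfl⟩)
      (mem_seg.2 ⟨min t 1 / t, (div_pos m0 t0).le, (div_le_one t0).2 (min_le_left _ _), by
        rw [ht, smul_smul, div_mul_cancel₀ _ t0.ne']⟩)
    exact smul_ne_zero m0.ne' n1 (by simpa using h6)
  rcases lt_or_gt_of_ne (mul_ne_zero hσ h4) with h5 | h5
  · exact key w1 w2 h1 h2 h5
  · refine key w2 w1 h2 h1 ?_
    have : det (w2 - r) (w1 - r) = -det (w1 - r) (w2 - r) := by simp [det]; ring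
    rw [this]; linarith

/-- In a critical pair the two obstacles lie on the outer sides. -/
theorem nook (G : Gal P E) {A B u v Q r r' : Pt} {σ l m : ℝ} (hσ : σ ≠ 0)
    (cov : ∀ z ∈ frontier P, Sees P A z ∨ Sees P B z) (h : Mov P E A u Q r σ l)
    (h' : Mov P E B v Q r' (-σ) m) : 0 < σ * ori A B Q := by
  obtain ⟨w', hw'⟩ := h'.vx
  have s2 := h'.side _ hw'
  have l1 := sub_pos.2 h.l1
  have m1 := sub_pos.2 h'.l1
  by_cases hD : ori A B Q = 0
  · exfalso
    have h1 : r' = r := by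
      refine h.uniq _ _ hw' ?_
      rw [h'.hr]
      simp only [ori, det, Prod.fst_sub, Prod.snd_sub, Prod.fst_add, Prod.snd_add,
        Prod.smul_fst, Prod.smul_snd, smul_eq_mul] at hD ⊢
      linear_combination (m - 1) * hD
    have s1 := h.side _ (h1 ▸ hw')
    have h2 := h.hr.symm.trans (h1.symm.trans h'.hr)
    have e1 := congrArg Prod.fst h2
    have e2 := congrArg Prod.snd h2
    have h3 : (1 - l) * ori A Q w' = (1 - m) * ori B Q w' := by
      simp only [ori, det, Prod.fst_sub, Prod.snd_sub, Prod.fst_add, Prod.snd_add,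
        Prod.smul_fst, Prod.smul_snd, smul_eq_mul] at e1 e2 ⊢
      linear_combination (-(w'.2 - Q.2)) * e1 + (w'.1 - Q.1) * e2
    have h4 : (1 - l) * (σ * ori A Q w') + (1 - m) * (-σ * ori B Q w') = 0 := by
      linear_combination σ * h3
    linarith [mul_pos l1 s1, mul_pos m1 s2]
  by_contra h0
  have h1 : σ * ori A B Q < 0 := lt_of_le_of_ne (not_lt.1 h0) (mul_ne_zero hσ hD)
  obtain ⟨t, t0, t1, ht⟩ := small (w := r - Q)
    (hid G hw' h'.l0 h'.l1 h'.hr (right_ne_zero_of_mul s2.ne'))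
  have hr : r ∈ segment ℝ A Q := mem_seg.2 ⟨l, h.l0.le, h.l1.le, h.hr⟩
  have hc : Q + t • (r - Q) ∈ segment ℝ A Q :=
    (convex_segment A Q).segment_subset (right_mem_segment _ _ _) hr
      (mem_seg.2 ⟨t, t0.le, t1.le, rfl⟩)
  refine ht ?_ (G.dart (Q := r) (R := Q) ?_ (sees_corner G hσ cov h) (h.see.sub hc hr) h'.see
    (h.see.sub hc (right_mem_segment _ _ _)))
  · have : ori B (Q + t • (r - Q)) r' = -(m * t * (1 - l) * ori A B Q) := by
      rw [h.hr, h'.hr]; simp [ori, det]; ring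
    rw [this]
    have h2 := sg_pp (σ := -σ) (x := ori A B Q) (by linarith) s2
    nlinarith [mul_pos (mul_pos (mul_pos h'.l0 t0) l1) h2]
  · have : ori B (Q + t • (r - Q)) r * ori B (Q + t • (r - Q)) Q =
        -((1 - t) * t * ((1 - l) * (1 - l)) * (ori A B Q * ori A B Q)) := by
      rw [h.hr]; simp [ori, det]; ring
    rw [this]
    exact neg_neg_of_pos (mul_pos (mul_pos (mul_pos (sub_pos.2 t1) t0) (mul_pos l1 l1))
      (mul_self_pos.2 hD))

/-- A critical pair. -/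
structure Cr (P : Set Pt) (E : Set (Pt × Pt)) (A u B v p q r r' : Pt) (σ s l m : ℝ) : Prop where
  he : (p, q) ∈ E
  hσ : σ = 1 ∨ σ = -1
  mm : 0 < ori p q A * ori p q B
  h1 : Mov P E A u (ln p (q - p) s) r σ l
  h2 : Mov P E B v (ln p (q - p) s) r' (-σ) m

/-- The overlap form of two sight lines on an edge. -/
def Gam (p d r r' a b : Pt) : ℝ := ori a p r * det d (r' - b) - ori b p r' * det d (r - a)

/-- The overlap form in coordinates centred at the critical position. -/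
def go (A u B v d Q : Pt) (l m o1 o2 o3 : ℝ) : ℝ :=
  (1 - l) * m * det u (Q - A) * det d (Q - B) * o1 -
    (1 - m) * l * det v (Q - B) * det d (Q - A) * o2 +
    ((1 - m) * det v (Q - B) * det d u - (1 - l) * det u (Q - A) * det d v) * o3

theorem gam_eq {a u b v p d r r' : Pt} {x0 y0 s l m : ℝ}
    (hr : r = ln a u x0 + l • (ln p d s - ln a u x0))
    (hr' : r' = ln b v y0 + m • (ln p d s - ln b v y0)) (x y : ℝ) :
    Gam p d r r' (ln a u x) (ln b v y) = go (ln a u x0) u (ln b v y0) v d (ln p d s) l m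
      (x - x0) (y - y0) ((x - x0) * (y - y0)) := by
  rw [hr, hr']
  simp only [Gam, go, ori, det, ln, Prod.fst_sub, Prod.snd_sub, Prod.fst_add, Prod.snd_add,
    Prod.smul_fst, Prod.smul_snd, smul_eq_mul]
  ring

theorem det_edge (p q A : Pt) (s : ℝ) : det (q - p) (ln p (q - p) s - A) = -ori p q A := by
  simp [ori, det, ln]; ring

theorem go_cross {A u B v d Q : Pt} {σ l m : ℝ} (l0 : 0 < l) (l1 : l < 1) (m0 : 0 < m)
    (m1 : m < 1) (hD : 0 < σ * ori A B Q) (mm : 0 < det d (Q - A) * det d (Q - B))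
    (h1 : 0 < det u (B - A) * det u (Q - A)) (h2 : 0 < det v (A - B) * det v (Q - B)) :
    0 < σ * det d (Q - A) * go A u B v d Q l m (det u v * det v (A - B))
      (-(det u v * det u (B - A))) (-(det u (B - A) * det v (A - B))) := by
  have key : ori A B Q * go A u B v d Q l m (det u v * det v (A - B))
      (-(det u v * det u (B - A))) (-(det u (B - A) * det v (A - B))) =
      (det d (Q - B) * (det v (A - B) * det u (Q - A)) +
        det d (Q - A) * (det u (B - A) * det v (Q - B))) *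
      (det u (B - A) * det v (A - B) * ((1 - l) * (1 - m)) +
        det u (B - A) * det v (Q - B) * (l * (1 - m)) +
        det v (A - B) * det u (Q - A) * (m * (1 - l))) := by
    simp only [go, ori, det, Prod.fst_sub, Prod.snd_sub]
    ring
  generalize go A u B v d Q l m _ _ _ = g at key ⊢
  generalize ori A B Q = D at key hD
  generalize det d (Q - A) = M at key mm ⊢
  generalize det d (Q - B) = M' at key mm
  generalize det u (B - A) = p at key h1
  generalize det u (Q - A) = n at key h1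
  generalize det v (A - B) = p' at key h2
  generalize det v (Q - B) = n' at key h2
  have p0 := mul_self_pos.2 (left_ne_zero_of_mul h1.ne')
  have p0' := mul_self_pos.2 (left_ne_zero_of_mul h2.ne')
  have M0 := mul_self_pos.2 (left_ne_zero_of_mul mm.ne')
  have a1 := mul_pos p0' h1
  have a2 := mul_pos p0 h2
  have a3 := mul_pos p0 p0'
  have b1 := add_pos (mul_pos mm a1) (mul_pos M0 a2)
  have b2 := add_pos (add_pos (mul_pos a3 (mul_pos (sub_pos.2 l1) (sub_pos.2 m1)))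
    (mul_pos a2 (mul_pos l0 (sub_pos.2 m1)))) (mul_pos a1 (mul_pos m0 (sub_pos.2 l1)))
  have b3 : 0 < p * p * (p' * p') * (D * (M * g)) := by
    refine (mul_pos b1 b2).trans_eq ?_
    linear_combination (-(p * p * (p' * p') * M)) * key
  have b4 : 0 < D * (M * g) := (pos_iff_pos_of_mul_pos b3).1 a3
  have b5 := sg_pp (σ := D) (x := σ) (by linarith) b4
  linarith

variable {a u b v : Pt} {x0 y0 : ℝ}

theorem Cr.ne {A B p q r r' : Pt} {σ s l m : ℝ} (h : Cr P E A u B v p q r r' σ s l m) : σ ≠ 0 := by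
  rcases h.hσ with h | h <;> simp [h]

/-- A point at which all overlap forms are positive. -/
theorem exists_point (G : Gal P E) (hg : Grd P a u x0) (hg' : Grd P b v y0)
    (cov : ∀ z ∈ frontier P, Sees P (ln a u x0) z ∨ Sees P (ln b v y0) z) :
    ∃ o1 o2 o3 : ℝ, ∀ p q r r' σ s l m, Cr P E (ln a u x0) u (ln b v y0) v p q r r' σ s l m →
      0 < σ * -ori p q (ln a u x0) *
        go (ln a u x0) u (ln b v y0) v (q - p) (ln p (q - p) s) l m o1 o2 o3 := by
  have side := hg.side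
  have side' := hg'.side
  generalize ln a u x0 = A at *
  generalize ln b v y0 = B at *
  by_cases h : Sees P A B ∧ det u (B - A) ≠ 0 ∧ det v (A - B) ≠ 0
  · refine ⟨det u v * det v (A - B), -(det u v * det u (B - A)),
      -(det u (B - A) * det v (A - B)), fun p q r r' σ s l m c => ?_⟩
    rw [← det_edge p q A s]
    exact go_cross c.h1.l0 c.h1.l1 c.h2.l0 c.h2.l1 (nook G c.ne cov c.h1 c.h2)
      (by simpa [det_edge] using c.mm)
      (lt_of_le_of_ne (side _ _ h.1 c.h1.see) (mul_ne_zero h.2.1 c.h1.n).symm)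
      (lt_of_le_of_ne (side' _ _ h.1.symm c.h2.see) (mul_ne_zero h.2.2 c.h2.n).symm)
  by_cases h0 : ∃ p q r r' σ s l m, Cr P E A u B v p q r r' σ s l m
  swap
  · exact ⟨0, 0, 0, fun p q r r' σ s l m c => absurd ⟨p, q, r, r', σ, s, l, m, c⟩ h0⟩
  obtain ⟨p0, q0, r0, r0', σ0, s0, l0, m0, c0⟩ := h0
  refine ⟨σ0 * det u (ln p0 (q0 - p0) s0 - A), 0, 0, fun p q r r' σ s l m c => ?_⟩
  have n1 := side _ _ c0.h1.see c.h1.see
  have n2 := side' _ _ c0.h2.see c.h2.see
  have d0 := nook G c0.ne cov c0.h1 c0.h2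
  have d1 := nook G c.ne cov c.h1 c.h2
  have hσ : 0 < σ * σ0 := by
    by_contra h1
    have h2 : σ = -σ0 := by
      rcases c.hσ with h2 | h2 <;> rcases c0.hσ with h3 | h3 <;> simp_all
    have h3 := sg_pn d0 (y := ori A B (ln p (q - p) s)) (by rw [h2] at d1; linarith)
    refine h ⟨G.dart h3 c0.h1.see c0.h2.see c.h1.see c.h2.see, fun h4 => ?_, fun h4 => ?_⟩
    · obtain ⟨t, ht⟩ := par (fun h5 => c.h1.n (by simp [h5, det])) h4
      have h5 : ∀ Q, ori A B Q = t * det u (Q - A) := fun Q => by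
        rw [ori, ht]; simp [det]; ring
      rw [h5, h5] at h3
      nlinarith [mul_nonneg (mul_self_nonneg t) n1]
    · obtain ⟨t, ht⟩ := par (fun h5 => c.h2.n (by simp [h5, det])) h4
      have h5 : ∀ Q, ori A B Q = -(t * det v (Q - B)) := fun Q => by
        rw [eq_add_of_sub_eq ht]; simp [ori, det]; ring
      rw [h5, h5] at h3
      nlinarith [mul_nonneg (mul_self_nonneg t) n2]
  have h1 := mul_pos (mul_pos (mul_pos hσ c.mm) (mul_pos (sub_pos.2 c.h1.l1) c.h2.l0))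
    (lt_of_le_of_ne n1 (mul_ne_zero c0.h1.n c.h1.n).symm)
  refine h1.trans_eq ?_
  simp only [go, det_edge]
  ring

theorem mem_K {x : ℝ} : x ∈ K ↔ ∃ q : ℚ, (q : ℝ) = x := RingHom.mem_fieldRange

/-- Rational bilinear forms that vanish at an irrational point satisfy one linear relation. -/
theorem alg (hx : x0 ∉ K) (hy : y0 ∉ K) : ∃ k1 k2 : ℝ, ∀ g1 g2 g3 : ℝ,
    (∀ x ∈ K, ∀ y ∈ K, g1 * (x - x0) + g2 * (y - y0) + g3 * ((x - x0) * (y - y0)) ∈ K) →
      g3 = k1 * g1 + k2 * g2 := by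
  have h1 : x0 ∉ Submodule.span ℚ {(1 : ℝ)} := by
    intro h
    obtain ⟨k, hk⟩ := Submodule.mem_span_singleton.1 h
    exact hx (mem_K.2 ⟨k, by simpa [Rat.smul_def] using hk⟩)
  obtain ⟨φ, h2, h3⟩ := Submodule.exists_dual_map_eq_bot_of_notMem h1 inferInstance
  have h4 : φ 1 = 0 := by
    have := Submodule.mem_map_of_mem (f := φ) (Submodule.mem_span_singleton_self (R := ℚ) (1 : ℝ))
    rwa [h3, Submodule.mem_bot] at this
  have app : ∀ c0 c1 c2 c3 : ℚ, (c0 : ℝ) + c1 * x0 + c2 * y0 + c3 * (x0 * y0) = 0 →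
      c1 * φ x0 + c2 * φ y0 + c3 * φ (x0 * y0) = 0 := by
    intro c0 c1 c2 c3 h
    have h5 : c0 • (1 : ℝ) + c1 • x0 + c2 • y0 + c3 • (x0 * y0) = 0 := by
      simpa [Rat.smul_def] using h
    have h6 := congrArg φ h5
    simp only [map_add, map_smul, h4, map_zero, smul_eq_mul] at h6
    linarith
  have hN : (φ x0 : ℝ) * y0 + φ y0 * x0 - φ (x0 * y0) ≠ 0 := by
    intro h
    have h5 := app (-φ (x0 * y0)) (φ y0) (φ x0) 0 (by push_cast; linear_combination h)
    have h6 : φ y0 = 0 := by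
      have : φ x0 * φ y0 = 0 := by linarith
      exact (mul_eq_zero.1 this).resolve_left h2
    refine hy (mem_K.2 ⟨φ (x0 * y0) / φ x0, ?_⟩)
    have h7 : (φ x0 : ℝ) ≠ 0 := by exact_mod_cast h2
    rw [h6] at h
    push_cast at h ⊢
    field_simp
    linarith
  refine ⟨φ x0 / ((φ x0 : ℝ) * y0 + φ y0 * x0 - φ (x0 * y0)),
    φ y0 / ((φ x0 : ℝ) * y0 + φ y0 * x0 - φ (x0 * y0)), fun g1 g2 g3 h => ?_⟩
  obtain ⟨f0, e0⟩ := mem_K.1 (h 0 K.zero_mem 0 K.zero_mem)
  obtain ⟨f1, e1⟩ := mem_K.1 (h 1 K.one_mem 0 K.zero_mem)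
  obtain ⟨f2, e2⟩ := mem_K.1 (h 0 K.zero_mem 1 K.one_mem)
  obtain ⟨f3, e3⟩ := mem_K.1 (h 1 K.one_mem 1 K.one_mem)
  have h5 := app f0 (f1 - f0) (f2 - f0) (f3 - f1 - f2 + f0)
    (by push_cast; rw [e0, e1, e2, e3]; ring)
  have h6 : ((f1 : ℝ) - f0) * φ x0 + (f2 - f0) * φ y0 + (f3 - f1 - f2 + f0) * φ (x0 * y0) = 0 := by
    exact_mod_cast h5
  rw [e0, e1, e2, e3] at h6
  rw [div_mul_eq_mul_div, div_mul_eq_mul_div, ← add_div, eq_div_iff hN]
  linear_combination -h6

/-- Rational positions near the critical one at which all overlap forms are positive. -/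
theorem exists_rat (G : Gal P E) (hg : Grd P a u x0) (hg' : Grd P b v y0)
    (cov : ∀ z ∈ frontier P, Sees P (ln a u x0) z ∨ Sees P (ln b v y0) z) {U : Set (ℝ × ℝ)}
    (hU : U ∈ 𝓝 (x0, y0)) : ∃ z ∈ U, z.1 ∈ K ∧ z.2 ∈ K ∧
      ∀ p q r r' σ s l m, Cr P E (ln a u x0) u (ln b v y0) v p q r r' σ s l m →
        0 < σ * -ori p q (ln a u x0) * Gam p (q - p) r r' (ln a u z.1) (ln b v z.2) := by
  obtain ⟨o1, o2, o3, ho⟩ := exists_point G hg hg' cov
  obtain ⟨k1, k2, hk⟩ := alg hg.irr hg'.irr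
  let I : Set ((Pt × Pt) × Pt × Pt × ℝ) := {i | ∃ s l m,
    Cr P E (ln a u x0) u (ln b v y0) v i.1.1 i.1.2 i.2.1 i.2.2.1 i.2.2.2 s l m}
  have hI : I.Finite := by
    refine (G.fin.prod ((G.fin.image Prod.fst).prod ((G.fin.image Prod.fst).prod
      (toFinite {(1 : ℝ), -1})))).subset ?_
    rintro i ⟨s, l, m, c⟩
    obtain ⟨w, hw⟩ := c.h1.vx
    obtain ⟨w', hw'⟩ := c.h2.vx
    exact ⟨c.he, ⟨_, hw, rfl⟩, ⟨_, hw', rfl⟩, c.hσ⟩
  let val : (Pt × Pt) × Pt × Pt × ℝ → ℝ × ℝ → ℝ := fun i z => i.2.2.2 *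
    -ori i.1.1 i.1.2 (ln a u x0) * Gam i.1.1 (i.1.2 - i.1.1) i.2.1 i.2.2.1 (ln a u z.1) (ln b v z.2)
  let ξ := o1 + k1 * o3
  let η := o2 + k2 * o3
  have h1 : ∀ᶠ t in 𝓝[>] (0 : ℝ), ∀ i ∈ I, 0 < val i (x0 + t * ξ, y0 + t * η) := by
    rw [eventually_all_finite hI]
    rintro ⟨⟨p, q⟩, r, r', σ⟩ ⟨s, l, m, c⟩
    obtain ⟨w, hw⟩ := c.h1.vx
    obtain ⟨w', hw'⟩ := c.h2.vx
    have h2 := ho _ _ _ _ _ _ _ _ c
    have h3 := gam_eq c.h1.hr c.h2.hr
    dsimp only at h2 h3 hw hw' c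
    obtain ⟨g, hg1⟩ : ∃ g, g = go (ln a u x0) u (ln b v y0) v (q - p) (ln p (q - p) s) l m :=
      ⟨_, rfl⟩
    rw [← hg1] at h2 h3
    have lin : ∀ x y z, g x y z = g 1 0 0 * x + g 0 1 0 * y + g 0 0 1 * z := by
      intro x y z
      simp only [hg1, go]; ring
    have rp := G.rat _ _ c.he
    have rd := (G.rat _ _ (G.sym _ _ c.he)).sub rp
    have h4 := hk (g 1 0 0) (g 0 1 0) (g 0 0 1) fun x hx y hy => by
      rw [← lin, ← h3]
      have ra := hg.rp.ln hg.ru hx
      have rb := hg'.rp.ln hg'.ru hy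
      exact K.sub_mem (K.mul_mem (ra.ori rp (G.rat _ _ hw)) (rd.det ((G.rat _ _ hw').sub rb)))
        (K.mul_mem (rb.ori rp (G.rat _ _ hw')) (rd.det ((G.rat _ _ hw).sub ra)))
    have h5 : ∀ᶠ t in 𝓝 (0 : ℝ), 0 < σ * -ori p q (ln a u x0) *
        (g o1 o2 o3 + t * (ξ * η * g 0 0 1)) :=
      ev_pos (φ := fun t => σ * -ori p q (ln a u x0) * (g o1 o2 o3 + t * (ξ * η * g 0 0 1)))
        (by fun_prop) (by simpa using h2)
    filter_upwards [nhdsWithin_le_nhds h5, self_mem_nhdsWithin] with t h6 h7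
    refine (mul_pos h7 h6).trans_eq ?_
    simp only [val, h3]
    rw [lin o1, lin (x0 + t * ξ - x0)]
    simp only [ξ, η]
    linear_combination t * (σ * -ori p q (ln a u x0)) * o3 * h4
  have h2 : ∀ᶠ t in 𝓝[>] (0 : ℝ), (x0 + t * ξ, y0 + t * η) ∈ interior U := by
    have : Continuous fun t : ℝ => (x0 + t * ξ, y0 + t * η) := by fun_prop
    exact nhdsWithin_le_nhds ((this.tendsto 0).eventually
      (by simpa using interior_mem_nhds.2 hU))
  obtain ⟨t, h3, h4⟩ := (h1.and h2).exists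
  have h5 : ∀ᶠ z in 𝓝 (x0 + t * ξ, y0 + t * η), z ∈ U ∧ ∀ i ∈ I, 0 < val i z :=
    Eventually.and (mem_interior_iff_mem_nhds.1 h4) ((eventually_all_finite hI).2 fun i hi =>
      ev_pos (by simp only [val, Gam]; fun_prop) (h3 i hi))
  obtain ⟨z, h6, h7⟩ := ((Rat.denseRange_cast (𝕜 := ℝ)).prodMap
    (Rat.denseRange_cast (𝕜 := ℝ))).mem_nhds h5
  exact ⟨_, h6, mem_K.2 ⟨_, rfl⟩, mem_K.2 ⟨_, rfl⟩, fun p q r r' σ s l m c =>
    h7 ((p, q), r, r', σ) ⟨s, l, m, c⟩⟩

end Pool.Agent.Lib.MP_1b4b80_lc
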