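import Mathlib

/-!
# Visibility in a closed plane region whose frontier is a finite union of segments
-/

set_option autoImplicit false

noncomputable section

namespace Pool.Agent.Lib.MP_1b4b80_lc

open Set Filter Topology

/-- Points of the plane. -/
abbrev Pt := ℝ × ℝ

/-- The determinant of two vectors. -/
def det (a b : Pt) : ℝ := a.1 * b.2 - a.2 * b.1

/-- The orientation of three points. -/
def ori (a b c : Pt) : ℝ := det (b - a) (c - a)

/-- Visibility. -/
def Sees (P : Set Pt) (a b : Pt) : Prop := segment ℝ a b ⊆ P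

/-- The field of rational reals. -/
def K : Subfield ℝ := (Rat.castHom ℝ).fieldRange

/-- Rational points. -/
def RP (p : Pt) : Prop := p.1 ∈ K ∧ p.2 ∈ K

/-- The facts on the gallery that are used. -/
structure Gal (P : Set Pt) (E : Set (Pt × Pt)) : Prop where
  fin : E.Finite
  sym : ∀ p q, (p, q) ∈ E → (q, p) ∈ E
  rat : ∀ p q, (p, q) ∈ E → RP p
  ne : ∀ p q, (p, q) ∈ E → p ≠ q
  simple : ∀ p q p' q' c, (p, q) ∈ E → (p', q') ∈ E → c ∈ openSegment ℝ p q →
    c ∈ segment ℝ p' q' → ori p q p' = 0 ∧ ori p q q' = 0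
  deg : ∀ r w, (r, w) ∈ E → ∃ w1 w2, (r, w1) ∈ E ∧ (r, w2) ∈ E ∧
    ∀ c, c ∈ segment ℝ r w1 → c ∈ segment ℝ r w2 → c = r
  cpt : IsCompact P
  fr : ∀ z, z ∈ frontier P ↔ ∃ e ∈ E, z ∈ segment ℝ e.1 e.2
  conn : IsPreconnected Pᶜ

@[fun_prop]
theorem cont_det {ι : Type*} [TopologicalSpace ι] {a b : ι → Pt} (ha : Continuous a)
    (hb : Continuous b) : Continuous fun z => det (a z) (b z) := by
  unfold det; fun_prop

@[fun_prop]
theorem cont_ori {ι : Type*} [TopologicalSpace ι] {a b c : ι → Pt} (ha : Continuous a)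
    (hb : Continuous b) (hc : Continuous c) : Continuous fun z => ori (a z) (b z) (c z) := by
  unfold ori; fun_prop

theorem mem_seg {a b z : Pt} : z ∈ segment ℝ a b ↔ ∃ t : ℝ, 0 ≤ t ∧ t ≤ 1 ∧ z = a + t • (b - a) := by
  rw [segment_eq_image']
  constructor
  · rintro ⟨t, ht, rfl⟩; exact ⟨t, ht.1, ht.2, rfl⟩
  · rintro ⟨t, h0, h1, rfl⟩; exact ⟨t, ⟨h0, h1⟩, rfl⟩

theorem mem_oseg {a b z : Pt} :
    z ∈ openSegment ℝ a b ↔ ∃ t : ℝ, 0 < t ∧ t < 1 ∧ z = a + t • (b - a) := by
  rw [openSegment_eq_image']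
  constructor
  · rintro ⟨t, ht, rfl⟩; exact ⟨t, ht.1, ht.2, rfl⟩
  · rintro ⟨t, h0, h1, rfl⟩; exact ⟨t, ⟨h0, h1⟩, rfl⟩

theorem ori_comb (p q a b : Pt) (t : ℝ) :
    ori p q (a + t • (b - a)) = (1 - t) * ori p q a + t * ori p q b := by
  simp [ori, det]; ring

theorem ori_self (a b : Pt) (t : ℝ) : ori a b (a + t • (b - a)) = 0 := by
  simp [ori, det]; ring

theorem ori_left (a b : Pt) : ori a b a = 0 := by simp [ori, det]

theorem ori_right (a b : Pt) : ori a b b = 0 := by simp [ori, det]; ring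

theorem par {d w : Pt} (hd : d ≠ 0) (h : det d w = 0) : ∃ t : ℝ, w = t • d := by
  unfold det at h
  by_cases h1 : d.1 = 0
  · have h2 : d.2 ≠ 0 := fun h2 => hd (Prod.ext h1 h2)
    refine ⟨w.2 / d.2, Prod.ext ?_ ?_⟩
    · have h3 : d.2 * w.1 = 0 := by rw [h1] at h; linarith
      simp [h1, (mul_eq_zero.1 h3).resolve_left h2]
    · simp [h2]
  · refine ⟨w.1 / d.1, Prod.ext ?_ ?_⟩
    · simp [h1]
    · simp only [Prod.smul_snd, smul_eq_mul]
      field_simp
      linarith

theorem on_line {p q x : Pt} (hne : p ≠ q) (h : ori p q x = 0) :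
    ∃ t : ℝ, x = p + t • (q - p) := by
  obtain ⟨t, ht⟩ := par (sub_ne_zero.2 hne.symm) h
  exact ⟨t, by rw [← ht]; abel⟩

theorem ori_three {p q x y z : Pt} (hne : p ≠ q) (hx : ori p q x = 0) (hy : ori p q y = 0)
    (hz : ori p q z = 0) : ori x y z = 0 := by
  obtain ⟨s, rfl⟩ := on_line hne hx
  obtain ⟨t, rfl⟩ := on_line hne hy
  obtain ⟨r, rfl⟩ := on_line hne hz
  simp [ori, det]; ring

theorem small {z w : Pt} {U : Set Pt} (hU : U ∈ 𝓝 z) :
    ∃ t : ℝ, 0 < t ∧ t < 1 ∧ z + t • w ∈ U := by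
  have h1 : Tendsto (fun t : ℝ => z + t • w) (𝓝 0) (𝓝 z) := by
    have : Continuous fun t : ℝ => z + t • w := by fun_prop
    simpa using this.tendsto 0
  have h2 : ∀ᶠ t : ℝ in 𝓝[>] 0, z + t • w ∈ U := nhdsWithin_le_nhds (h1 hU)
  obtain ⟨t, h3, h4⟩ := (h2.and (Ioo_mem_nhdsGT (zero_lt_one' ℝ))).exists
  exact ⟨t, h4.1, h4.2, h3⟩

variable {P : Set Pt} {E : Set (Pt × Pt)}

theorem Sees.symm {a b : Pt} (h : Sees P a b) : Sees P b a := by
  unfold Sees at *; rwa [segment_symm]

theorem Sees.sub {a b x y : Pt} (h : Sees P a b) (hx : x ∈ segment ℝ a b)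
    (hy : y ∈ segment ℝ a b) : Sees P x y :=
  ((convex_segment a b).segment_subset hx hy).trans h

theorem closed_sees (hP : IsClosed P) {ι : Type*} [TopologicalSpace ι] {a b : ι → Pt}
    (ha : Continuous a) (hb : Continuous b) : IsClosed {z | Sees P (a z) (b z)} := by
  have : {z | Sees P (a z) (b z)} =
      ⋂ t ∈ Icc (0 : ℝ) 1, (fun z => a z + t • (b z - a z)) ⁻¹' P := by
    ext z
    simp only [Sees, mem_ofPred_eq, mem_iInter, mem_preimage, subset_def, mem_seg]
    constructor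
    · intro h t ht; exact h _ ⟨t, ht.1, ht.2, rfl⟩
    · rintro h _ ⟨t, h0, h1, rfl⟩; exact h t ⟨h0, h1⟩
  rw [this]
  exact isClosed_biInter fun t _ => hP.preimage (by fun_prop)

theorem col3 {p q x y z : Pt} (hne : p ≠ q) (hx : ori p q x = 0) (hy : ori p q y = 0)
    (hz : ori p q z = 0) (h1 : Sees P x y) (h2 : Sees P y z) : Sees P x z := by
  obtain ⟨s, rfl⟩ := on_line hne hx
  obtain ⟨t, rfl⟩ := on_line hne hy
  obtain ⟨r, rfl⟩ := on_line hne hz
  have key : ∀ a b : ℝ, segment ℝ (p + a • (q - p)) (p + b • (q - p)) =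
      AffineMap.lineMap p q '' uIcc a b := by
    intro a b
    rw [← segment_eq_uIcc, image_segment]
    simp [AffineMap.lineMap_apply, add_comm]
  unfold Sees at *
  rw [key] at h1 h2 ⊢
  refine (image_mono (uIcc_subset_uIcc_union_uIcc (b := t))).trans ?_
  rw [image_union]
  exact union_subset h1 h2

theorem inout (hP : IsClosed P) {S : Set Pt} (hS : IsPreconnected S)
    (h : ∀ z ∈ S, z ∉ frontier P) : S ⊆ interior P ∨ S ⊆ Pᶜ := by
  refine hS.subset_or_subset isOpen_interior hP.isOpen_compl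
    (disjoint_compl_right.mono_left interior_subset) fun z hz => ?_
  by_cases h1 : z ∈ P
  · left
    by_contra h2
    exact h z hz ⟨subset_closure h1, h2⟩
  · exact Or.inr h1

theorem sees_of_avoid (hP : IsClosed P) {a b c : Pt}
    (h : ∀ z ∈ openSegment ℝ a b, z ∉ frontier P) (hc : c ∈ openSegment ℝ a b) (hcP : c ∈ P) :
    Sees P a b := by
  rcases inout hP (convex_openSegment a b).isPreconnected h with h1 | h1
  · exact segment_subset_closure_openSegment.trans
      (hP.closure_subset_iff.2 (h1.trans interior_subset))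
  · exact absurd hcP (h1 hc)

namespace Gal

theorem cl (G : Gal P E) : IsClosed P := G.cpt.isClosed

theorem sees_edge (G : Gal P E) {p q : Pt} (h : (p, q) ∈ E) : Sees P p q := fun z hz =>
  G.cl.frontier_subset ((G.fr z).2 ⟨_, h, hz⟩)

/-- From an inner point of an edge one sees only one side of the edge. -/
theorem one_side (G : Gal P E) {p q c a b : Pt} (h : (p, q) ∈ E) (hc : c ∈ openSegment ℝ p q)
    (ha : Sees P c a) (hb : Sees P c b) : 0 ≤ ori p q a * ori p q b := by
  by_contra hlt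
  push Not at hlt
  have h0 : ori p q c = 0 := by
    obtain ⟨t, -, -, rfl⟩ := mem_oseg.1 hc
    exact ori_self _ _ _
  have h1 : ∀ᶠ z in 𝓝 c, ∀ e ∈ E, z ∈ segment ℝ e.1 e.2 → ori p q z = 0 := by
    rw [eventually_all_finite G.fin]
    intro e he
    by_cases h2 : c ∈ segment ℝ e.1 e.2
    · obtain ⟨h3, h4⟩ := G.simple p q e.1 e.2 c h he hc h2
      refine Eventually.of_forall fun z hz => ?_
      obtain ⟨t, -, -, rfl⟩ := mem_seg.1 hz
      rw [ori_comb, h3, h4]; ring
    · have h3 : IsClosed (segment ℝ e.1 e.2) := by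
        rw [segment_eq_image']
        exact (isCompact_Icc.image (by fun_prop)).isClosed
      filter_upwards [h3.isOpen_compl.mem_nhds h2] with z hz h4 using absurd h4 hz
  obtain ⟨ε, hε, h2⟩ := Metric.eventually_nhds_iff_ball.1 h1
  have half : ∀ w : Pt, Sees P c w → ori p q w ≠ 0 → ∀ z ∈ Metric.ball c ε,
      0 < ori p q w * ori p q z → z ∈ P := by
    intro w hw hw0 z hz hz0
    have h3 : Convex ℝ (Metric.ball c ε ∩ {z | 0 < ori p q w * ori p q z}) := by
      refine (convex_ball c ε).inter (convex_iff_segment_subset.2 fun x hx y hy z hz => ?_)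
      obtain ⟨t, t0, t1, rfl⟩ := mem_seg.1 hz
      simp only [mem_ofPred_eq] at hx hy ⊢
      rw [ori_comb]
      rcases t0.eq_or_lt with rfl | t0
      · simpa using hx
      · nlinarith [mul_pos t0 hy, mul_nonneg (sub_nonneg.2 t1) hx.le]
    rcases inout G.cl h3.isPreconnected (fun y hy h4 => by
      obtain ⟨e, he, h5⟩ := (G.fr y).1 h4
      have h6 := hy.2
      simp only [mem_ofPred_eq, h2 y hy.1 e he h5] at h6
      simp at h6) with h4 | h4
    · exact interior_subset (h4 ⟨hz, hz0⟩)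
    · obtain ⟨t, t0, t1, h5⟩ := small (w := w - c) (Metric.ball_mem_nhds c hε)
      refine absurd (hw (mem_seg.2 ⟨t, t0.le, t1.le, rfl⟩)) (h4 ⟨h5, ?_⟩)
      simp only [mem_ofPred_eq]
      rw [ori_comb, h0]
      nlinarith [mul_pos t0 (mul_self_pos.2 hw0)]
  have ha0 : ori p q a ≠ 0 := fun h => by simp [h] at hlt
  have hb0 : ori p q b ≠ 0 := fun h => by simp [h] at hlt
  have h3 : c ∈ closure Pᶜ := by
    have h4 : c ∈ frontier P := (G.fr c).2 ⟨_, h, openSegment_subset_segment _ _ _ hc⟩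
    rw [← frontier_compl] at h4
    exact frontier_subset_closure h4
  obtain ⟨z, hz, hz'⟩ := mem_closure_iff.1 h3 _ Metric.isOpen_ball (Metric.mem_ball_self hε)
  have off : ∀ y ∈ Metric.ball c ε, ori p q y ≠ 0 → y ∈ P := by
    intro y hy hy0
    rcases lt_or_gt_of_ne (mul_ne_zero ha0 hy0) with h4 | h4
    · refine half b hb hb0 y hy ?_
      by_contra h5
      push Not at h5
      nlinarith [mul_pos_of_neg_of_neg h4 hlt, mul_self_pos.2 ha0]
    · exact half a ha ha0 y hy h4
  by_cases h4 : ori p q z = 0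
  · obtain ⟨t, t0, -, h5⟩ := small (w := a - z)
      ((Metric.isOpen_ball.inter G.cl.isOpen_compl).mem_nhds ⟨hz, hz'⟩)
    refine h5.2 (off _ h5.1 ?_)
    rw [ori_comb, h4]
    simp [t0.ne', ha0]
  · exact hz' (off z hz h4)

/-- A segment that crosses an edge strictly leaves the gallery. -/
theorem cross (G : Gal P E) {p q a b : Pt} (h : (p, q) ∈ E) (h1 : ori a b p * ori a b q < 0)
    (h2 : ori p q a * ori p q b < 0) : ¬ Sees P a b := by
  intro hs
  have frac : ∀ x y : ℝ, x * y < 0 → x - y ≠ 0 ∧ 0 < x / (x - y) ∧ x / (x - y) < 1 := by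
    intro x y hxy
    rcases mul_neg_iff.1 hxy with ⟨h3, h4⟩ | ⟨h3, h4⟩
    · have : 0 < x - y := by linarith
      exact ⟨this.ne', div_pos h3 this, (div_lt_one this).2 (by linarith)⟩
    · have : x - y < 0 := by linarith
      exact ⟨this.ne, div_pos_of_neg_of_neg h3 this, (div_lt_one_of_neg this).2 (by linarith)⟩
  obtain ⟨n1, t0, t1⟩ := frac _ _ h1
  obtain ⟨n2, s0, s1⟩ := frac _ _ h2
  have e : p + (ori a b p / (ori a b p - ori a b q)) • (q - p) =
      a + (ori p q a / (ori p q a - ori p q b)) • (b - a) := by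
    refine Prod.ext ?_ ?_ <;>
    · simp only [Prod.fst_add, Prod.snd_add, Prod.smul_fst, Prod.smul_snd, Prod.fst_sub,
        Prod.snd_sub, smul_eq_mul]
      field_simp
      simp only [ori, det, Prod.fst_sub, Prod.snd_sub]
      ring
  have hc := mem_seg.2 ⟨_, s0.le, s1.le, e⟩
  exact absurd (G.one_side h (mem_oseg.2 ⟨_, t0, t1, rfl⟩)
    (hs.sub hc (left_mem_segment _ _ _)) (hs.sub hc (right_mem_segment _ _ _))) (not_le.2 h2)

/-- The diagonal of a quadrilateral whose sides lie in the gallery. -/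
theorem dart (G : Gal P E) {A B Q R : Pt} (h : ori A B Q * ori A B R < 0) (h1 : Sees P A Q)
    (h2 : Sees P B Q) (h3 : Sees P A R) (h4 : Sees P B R) : Sees P A B := by
  wlog hQ : 0 < ori A B Q generalizing Q R
  · refine this (by rwa [mul_comm]) h3 h4 h1 h2 ?_
    by_contra h5
    push Not at hQ h5
    exact absurd (mul_nonneg_of_nonpos_of_nonpos hQ h5) (not_le.2 h)
  have hR : ori A B R < 0 := by
    by_contra h5
    push Not at h5
    exact absurd (mul_nonneg hQ.le h5) (not_le.2 h)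
  have hne : A ≠ B := by
    rintro rfl
    simp [ori, det] at hQ
  let f : Pt → Pt → ℝ := fun T z => min (ori A z T / ori A B T) (ori z B T / ori A B T)
  have line : ∀ T, ori A B T ≠ 0 → ∀ t : ℝ, f T (A + t • (B - A)) = min t (1 - t) := by
    intro T hT t
    have e1 : ori A (A + t • (B - A)) T = t * ori A B T := by simp [ori, det]; ring
    have e2 : ori (A + t • (B - A)) B T = (1 - t) * ori A B T := by simp [ori, det]; ring
    simp only [f, e1, e2, mul_div_cancel_right₀ _ hT]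
  have tri : ∀ T, ori A B T ≠ 0 → Sees P A T → Sees P B T → ∀ z, 0 ≤ ori A B z / ori A B T →
      f T z = 0 → z ∈ P := by
    intro T hT s1 s2 z h5 h6
    have sum : ori A z T / ori A B T + ori z B T / ori A B T + ori A B z / ori A B T = 1 := by
      field_simp
      simp [ori, det]; ring
    have bary : z = (ori z B T / ori A B T) • A + (ori A z T / ori A B T) • B +
        (ori A B z / ori A B T) • T := by
      refine Prod.ext ?_ ?_ <;>
      · simp only [Prod.fst_add, Prod.snd_add, Prod.smul_fst, Prod.smul_snd, smul_eq_mul]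
        field_simp
        simp only [ori, det, Prod.fst_sub, Prod.snd_sub]
        ring
    rcases min_eq_iff.1 h6 with ⟨h7, h8⟩ | ⟨h7, h8⟩
    · rw [h7] at sum bary h8
      exact s1 ⟨_, _, h8, h5, by linarith, by simpa using bary.symm⟩
    · rw [h7] at sum bary h8
      exact s2 ⟨_, _, h8, h5, by linarith, by simpa using bary.symm⟩
  let F : Pt → ℝ := fun z => if 0 ≤ ori A B z then f Q z else f R z
  have hF : Continuous F := by
    refine Continuous.if_le (by simp only [f]; fun_prop) (by simp only [f]; fun_prop)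
      continuous_const (by fun_prop) fun z hz => ?_
    obtain ⟨t, rfl⟩ := on_line hne hz.symm
    rw [line Q hQ.ne', line R hR.ne]
  have hl : ∀ t : ℝ, F (A + t • (B - A)) = min t (1 - t) := by
    intro t
    simp only [F, ori_self, le_refl, if_true, line Q hQ.ne']
  have hz : ∀ z, F z = 0 → z ∈ P := by
    intro z h5
    by_cases h6 : 0 ≤ ori A B z
    · exact tri Q hQ.ne' h1 h2 z (div_nonneg h6 hQ.le) (by simpa [F, h6] using h5)
    · exact tri R hR.ne h3 h4 z (div_nonneg_of_nonpos (not_le.1 h6).le hR.le)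
        (by simpa [F, h6] using h5)
  obtain ⟨t, t1, ht⟩ : ∃ t : ℝ, 1 ≤ t ∧ A + t • (B - A) ∉ P := by
    obtain ⟨C, hC⟩ := G.cpt.isBounded.exists_norm_le
    have n0 : 0 < ‖B - A‖ := norm_pos_iff.2 (sub_ne_zero.2 hne.symm)
    refine ⟨max 1 ((C + ‖A‖ + 1) / ‖B - A‖), le_max_left _ _, fun h5 => ?_⟩
    have h6 := hC _ h5
    have h7 := norm_sub_le (A + max 1 ((C + ‖A‖ + 1) / ‖B - A‖) • (B - A)) A
    rw [add_sub_cancel_left, norm_smul, Real.norm_of_nonneg (zero_le_one.trans (le_max_left _ _))]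
      at h7
    have h8 := (div_le_iff₀ n0).1 (le_max_right 1 ((C + ‖A‖ + 1) / ‖B - A‖))
    linarith
  intro z hz'
  obtain ⟨s, s0, s1, rfl⟩ := mem_seg.1 hz'
  by_contra h5
  obtain ⟨y, hy, h6⟩ := G.conn.intermediate_value ht h5 hF.continuousOn (a := _) (b := _)
    (show (0 : ℝ) ∈ Icc _ _ from ⟨by rw [hl]; exact (min_le_right _ _).trans (by linarith),
      by rw [hl]; exact le_min s0 (by linarith)⟩)
  exact hy (hz y h6)

end Gal

theorem avoid1 {p q a b : Pt} (h : 0 < ori a b p * ori a b q) :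
    ∀ z ∈ openSegment ℝ a b, z ∉ segment ℝ p q := by
  intro z hz hz'
  obtain ⟨t, -, -, e⟩ := mem_oseg.1 hz
  obtain ⟨s, s0, s1, e'⟩ := mem_seg.1 hz'
  have h1 : ori a b z = 0 := by rw [e, ori_self]
  rw [e', ori_comb] at h1
  have h2 : ((1 - s) * ori a b p + s * ori a b q) * (ori a b p + ori a b q) = 0 := by
    rw [h1, zero_mul]
  nlinarith [mul_nonneg (sub_nonneg.2 s1) (mul_self_nonneg (ori a b p)),
    mul_nonneg s0 (mul_self_nonneg (ori a b q))]

theorem avoid2 {p q a b : Pt} (h : 0 ≤ ori p q a * ori p q b)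
    (h' : ori p q a ≠ 0 ∨ ori p q b ≠ 0) : ∀ z ∈ openSegment ℝ a b, z ∉ segment ℝ p q := by
  intro z hz hz'
  obtain ⟨t, t0, t1, e⟩ := mem_oseg.1 hz
  obtain ⟨s, -, -, e'⟩ := mem_seg.1 hz'
  have h1 : ori p q z = 0 := by rw [e', ori_self]
  rw [e, ori_comb] at h1
  have h2 : ((1 - t) * ori p q a + t * ori p q b) * (ori p q a + ori p q b) = 0 := by
    rw [h1, zero_mul]
  rcases h' with h' | h'
  · nlinarith [mul_pos (sub_pos.2 t1) (mul_self_pos.2 h'),
      mul_nonneg t0.le (mul_self_nonneg (ori p q b))]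
  · nlinarith [mul_nonneg (sub_pos.2 t1).le (mul_self_nonneg (ori p q a)),
      mul_pos t0 (mul_self_pos.2 h')]

end Pool.Agent.Lib.MP_1b4b80_lc
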