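import Pool.Agent.Lib.MP_1b4b80_lc.Geo

/-!
# The region bounded by a compact connected set that locally lies in two rays
-/

set_option autoImplicit false

noncomputable section

namespace Pool.Agent.Lib.MP_1b4b80_lc

open Set Filter Topology Bornology

/-- The points whose component in the complement of `C` is unbounded. -/
def outside (C : Set Pt) : Set Pt := {z | ¬ IsBounded (connectedComponentIn Cᶜ z)}

variable {C : Set Pt}

theorem outside_sub {z : Pt} (h : z ∈ outside C) : z ∉ C := fun hz =>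
  h (by rw [connectedComponentIn_eq_empty (by simpa using hz)]; exact isBounded_empty)

theorem spread {S : Set Pt} (hS : IsPreconnected S) (h : S ⊆ Cᶜ) {z : Pt} (hz : z ∈ S)
    (hz' : z ∈ outside C) : S ⊆ outside C := fun y hy h1 =>
  hz' (by rwa [connectedComponentIn_eq (hS.subset_connectedComponentIn hz h hy)])

theorem nhds_out (hC : IsClosed C) {z : Pt} (hz : z ∉ C) :
    ∀ᶠ y in 𝓝 z, (y ∈ outside C ↔ z ∈ outside C) := by
  filter_upwards [(hC.isOpen_compl.connectedComponentIn (x := z)).mem_nhds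
    (mem_connectedComponentIn hz)] with y hy
  simp only [outside, mem_ofPred_eq, connectedComponentIn_eq hy]

theorem open_out (hC : IsClosed C) : IsOpen (outside C) :=
  isOpen_iff_mem_nhds.2 fun _ hz => (nhds_out hC (outside_sub hz)).mono fun _ hy => hy.2 hz

theorem frontier_out (hC : IsClosed C) : frontier (outside C) ⊆ C := by
  intro z hz
  by_contra h
  rw [(open_out hC).frontier_eq] at hz
  obtain ⟨y, h1, h2⟩ := mem_closure_iff_nhds.1 hz.1 _ (nhds_out hC h)
  exact hz.2 (h1.1 h2)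

theorem cvx {f : Pt → ℝ} (hf : ∀ x y : Pt, ∀ t : ℝ, f (x + t • (y - x)) = (1 - t) * f x + t * f y) :
    Convex ℝ {z | 0 < f z} := by
  refine convex_iff_segment_subset.2 fun x hx y hy z hz => ?_
  obtain ⟨t, t0, t1, rfl⟩ := mem_seg.1 hz
  simp only [mem_ofPred_eq] at hx hy ⊢
  rw [hf]
  rcases t0.eq_or_lt with rfl | t0
  · simpa using hx
  · nlinarith [mul_pos t0 hy, mul_nonneg (sub_nonneg.2 t1) hx.le]

theorem far_out (hC : IsBounded C) : IsBounded (outside C)ᶜ ∧ IsPreconnected (outside C) := by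
  obtain ⟨R, hR⟩ := hC.exists_norm_le
  let O : Set Pt := (({z | 0 < z.1 - R} ∪ {z | 0 < z.2 - R}) ∪ {z | 0 < -z.1 - R}) ∪
    {z | 0 < -z.2 - R}
  have hO : IsPreconnected O := by
    refine IsPreconnected.union (-(R + 1), -(R + 1)) (Or.inr (by simp)) (by simp)
      (IsPreconnected.union (-(R + 1), R + 1) (Or.inr (by simp)) (by simp)
        (IsPreconnected.union (R + 1, R + 1) (by simp) (by simp) (cvx ?_).isPreconnected
          (cvx ?_).isPreconnected) (cvx ?_).isPreconnected) (cvx ?_).isPreconnected <;>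
    · intro x y t
      simp
      ring
  have hO' : ∀ z, z ∈ O ↔ R < ‖z‖ := by
    intro z
    simp only [O, mem_union, mem_ofPred_eq, Prod.norm_def, Real.norm_eq_abs, lt_max_iff, lt_abs,
      sub_pos]
    tauto
  have h1 : O ⊆ Cᶜ := fun z hz h => absurd (hR z h) (not_le.2 ((hO' z).1 hz))
  have unb : ∀ S : Set Pt, ¬ IsBounded S → ∃ z ∈ S, z ∈ O := by
    intro S hS
    by_contra h
    push Not at h
    exact hS (isBounded_iff_forall_norm_le.2 ⟨R, fun z hz => not_lt.1 fun h2 =>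
      h z hz ((hO' z).2 h2)⟩)
  have h2 : ¬ IsBounded O := by
    intro h
    obtain ⟨R', hR'⟩ := h.exists_norm_le
    have h3 := hR' (|R| + |R'| + 1, 0) (Or.inl (Or.inl (Or.inl (by
      simp only [mem_ofPred_eq]; linarith [le_abs_self R, abs_nonneg R']))))
    have h4 := (le_abs_self _).trans ((norm_fst_le ((|R| + |R'| + 1, 0) : Pt)).trans h3)
    simp only at h4
    linarith [le_abs_self R', abs_nonneg R]
  have h3 : O ⊆ outside C := fun z hz h => h2 (h.subset (hO.subset_connectedComponentIn hz h1))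
  refine ⟨isBounded_iff_forall_norm_le.2 ⟨R, fun z hz => not_lt.1 fun h =>
    hz (h3 ((hO' z).2 h))⟩, ?_⟩
  obtain ⟨z0, h4, -⟩ := unb O h2
  have h5 : outside C = connectedComponentIn Cᶜ z0 := by
    refine Subset.antisymm (fun z hz => ?_) (spread isPreconnected_connectedComponentIn
      (connectedComponentIn_subset _ _) (mem_connectedComponentIn (h1 h4)) (h3 h4))
    obtain ⟨y, h6, h7⟩ := unb _ hz
    rw [connectedComponentIn_eq (hO.subset_connectedComponentIn h4 h1 h7),
      ← connectedComponentIn_eq h6]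
    exact mem_connectedComponentIn (outside_sub hz)
  rw [h5]
  exact isPreconnected_connectedComponentIn

theorem lim_cl {U B H : Set Pt} (hB : IsOpen B) (h : B ∩ H ⊆ U) {y w : Pt} (hy : y ∈ B)
    (hw : ∀ t : ℝ, 0 < t → y + t • w ∈ H) : y ∈ closure U := by
  refine mem_closure_iff_nhds.2 fun V hV => ?_
  obtain ⟨t, t0, -, ht⟩ := small (w := w) (inter_mem hV (hB.mem_nhds hy))
  exact ⟨_, ht.1, h ⟨ht.2, hw t t0⟩⟩

theorem local_out (hC : IsClosed C) {c w1 w2 : Pt} (h1 : w1 ≠ 0) (hc : c ∈ closure (outside C))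
    (h : ∀ᶠ z in 𝓝 c, z ∈ C → ∃ t : ℝ, 0 ≤ t ∧ (z = c + t • w1 ∨ z = c + t • w2)) :
    ∀ᶠ z in 𝓝 c, z ∈ C → z ∈ closure (outside C) := by
  obtain ⟨ε, hε, h2⟩ := Metric.eventually_nhds_iff_ball.1 h
  obtain ⟨z, hz, hz'⟩ := mem_closure_iff.1 hc _ Metric.isOpen_ball (Metric.mem_ball_self hε)
  have hn := (Metric.isOpen_ball.inter (open_out hC)).mem_nhds ⟨hz, hz'⟩
  have aff : ∀ (k : ℝ) (w : Pt), Convex ℝ (Metric.ball c ε ∩ {y | 0 < k * det w (y - c)}) :=
    fun k w => (convex_ball c ε).inter (cvx fun x y t => by simp [det]; ring)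
  refine Metric.eventually_nhds_iff_ball.2 ⟨ε, hε, fun y hy hyC => ?_⟩
  obtain ⟨s, s0, hs⟩ := h2 y hy hyC
  by_cases hD : det w1 w2 = 0
  · have h3 : ∀ y ∈ Metric.ball c ε, y ∈ C → det w1 (y - c) = 0 := by
      intro y hy hyC
      obtain ⟨s, -, rfl | rfl⟩ := h2 y hy hyC
      · simp [det]; ring
      · simp only [det, add_sub_cancel_left, Prod.smul_fst, Prod.smul_snd, smul_eq_mul] at hD ⊢
        linear_combination s * hD
    obtain ⟨x, h4, h5⟩ : ∃ x ∈ Metric.ball c ε ∩ outside C, det w1 (x - c) ≠ 0 := by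
      by_cases h4 : det w1 (z - c) = 0
      · obtain ⟨t, t0, -, ht⟩ := small (w := (-w1.2, w1.1)) hn
        refine ⟨_, ht, fun h5 => h1 ?_⟩
        have h6 : t * (w1.1 * w1.1 + w1.2 * w1.2) = 0 := by
          simp only [det, Prod.fst_sub, Prod.snd_sub, Prod.fst_add, Prod.snd_add, Prod.smul_fst,
            Prod.smul_snd, smul_eq_mul] at h4 h5
          linear_combination h5 - h4
        have h7 := mul_self_add_mul_self_eq_zero.1 ((mul_eq_zero.1 h6).resolve_left t0.ne')
        exact Prod.ext h7.1 h7.2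
      · exact ⟨z, ⟨hz, hz'⟩, h4⟩
    refine lim_cl Metric.isOpen_ball (spread (aff (det w1 (x - c)) w1).isPreconnected
      (fun y hy h6 => by simpa [h3 y hy.1 h6] using hy.2) ⟨h4.1, mul_self_pos.2 h5⟩ h4.2) hy
      (w := x - c) fun t t0 => ?_
    have h6 : det w1 (y + t • (x - c) - c) = det w1 (y - c) + t * det w1 (x - c) := by
      simp [det]; ring
    simp only [mem_ofPred_eq, h6, h3 y hy hyC]
    nlinarith [mul_pos t0 (mul_self_pos.2 h5)]
  have D0 := mul_self_pos.2 hD
  have e1 : ∀ (x : Pt) (a b : ℝ), det w1 w2 * det w1 (x + a • w1 + b • w2 - c) =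
      det w1 w2 * det w1 (x - c) + b * (det w1 w2 * det w1 w2) := by
    intro x a b; simp [det]; ring
  have e2 : ∀ (x : Pt) (a b : ℝ), det w1 w2 * det w2 (x + a • w1 + b • w2 - c) =
      det w1 w2 * det w2 (x - c) - a * (det w1 w2 * det w1 w2) := by
    intro x a b; simp [det]; ring
  have d0 : ∀ w, det w (c - c) = 0 := fun w => by simp [det]
  have onC : ∀ y ∈ Metric.ball c ε, y ∈ C → ∃ a b : ℝ, 0 ≤ a ∧ 0 ≤ b ∧ a * b = 0 ∧
      det w1 w2 * det w1 (y - c) = b * (det w1 w2 * det w1 w2) ∧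
      det w1 w2 * det w2 (y - c) = -(a * (det w1 w2 * det w1 w2)) := by
    intro y hy hyC
    obtain ⟨s, s0, rfl | rfl⟩ := h2 y hy hyC
    · exact ⟨s, 0, s0, le_rfl, by simp, by simp only [det]; simp; ring_nf; simp,
        by simp [det]; ring⟩
    · exact ⟨0, s, le_rfl, s0, by simp, by simp only [det]; simp only [add_sub_cancel_left,
        Prod.smul_fst, Prod.smul_snd, smul_eq_mul]; ring, by simp only [det]; simp; ring_nf; simp⟩
  obtain ⟨a, b, a0, b0, ab, f1, f2⟩ := onC y hy hyC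
  by_cases h3 : 0 < -det w1 w2 * det w1 (z - c) ∨ 0 < det w1 w2 * det w2 (z - c)
  · obtain ⟨t, t0, -, ht⟩ := small (w := -w1 - w2) (Metric.ball_mem_nhds c hε)
    have h4 : c + t • (-w1 - w2) = c + (-t) • w1 + (-t) • w2 := by module
    have h5 := spread (C := C) (IsPreconnected.union (c + t • (-w1 - w2))
      (mem_inter ht (by
        simp only [mem_ofPred_eq, h4, neg_mul (det w1 w2), e1, d0]; nlinarith [mul_pos t0 D0]))
      (mem_inter ht (by simp only [mem_ofPred_eq, h4, e2, d0]; nlinarith [mul_pos t0 D0]))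
      (aff (-det w1 w2) w1).isPreconnected (aff (det w1 w2) w2).isPreconnected) (by
        rintro x (hx | hx) h5 <;> obtain ⟨a, b, a0, b0, -, f1, f2⟩ := onC x hx.1 h5
        · have h6 : 0 < -det w1 w2 * det w1 (x - c) := hx.2
          nlinarith [mul_nonneg b0 D0.le]
        · have h6 : 0 < det w1 w2 * det w2 (x - c) := hx.2
          nlinarith [mul_nonneg a0 D0.le])
      (h3.imp (fun h => ⟨hz, h⟩) fun h => ⟨hz, h⟩) hz'
    rcases mul_eq_zero.1 ab with rfl | rfl
    · refine lim_cl Metric.isOpen_ball (subset_union_right.trans h5) hy (w := -w1) fun t t0 => ?_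
      have h6 : y + t • -w1 = y + (-t) • w1 + (0 : ℝ) • w2 := by module
      simp only [mem_ofPred_eq, h6, e2, f2]
      nlinarith [mul_pos t0 D0]
    · refine lim_cl Metric.isOpen_ball (subset_union_left.trans h5) hy (w := -w2) fun t t0 => ?_
      have h6 : y + t • -w2 = y + (0 : ℝ) • w1 + (-t) • w2 := by module
      simp only [mem_ofPred_eq, h6, neg_mul (det w1 w2), e1, f1]
      nlinarith [mul_pos t0 D0]
  · push Not at h3
    have up : ∀ x : Pt, -det w1 w2 * det w1 (x - c) ≤ 0 → det w1 w2 * det w2 (x - c) ≤ 0 →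
        ∀ t : ℝ, 0 < t → x + t • (w1 + w2) ∈ {y | 0 < det w1 w2 * det w1 (y - c)} ∩
          {y | 0 < -det w1 w2 * det w2 (y - c)} := by
      intro x h4 h5 t t0
      have h6 : x + t • (w1 + w2) = x + t • w1 + t • w2 := by module
      simp only [mem_inter_iff, mem_ofPred_eq, h6, neg_mul (det w1 w2), e1, e2]
      constructor <;> nlinarith [mul_pos t0 D0]
    obtain ⟨t, t0, -, ht⟩ := small (w := w1 + w2) hn
    have h4 := spread (C := C) ((aff (det w1 w2) w1).inter (aff (-det w1 w2) w2)).isPreconnected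
      (fun x hx h4 => by
        obtain ⟨a, b, -, -, ab, f1, f2⟩ := onC x hx.1.1 h4
        have h5 : 0 < det w1 w2 * det w1 (x - c) := hx.1.2
        have h6 : 0 < -det w1 w2 * det w2 (x - c) := hx.2.2
        rcases mul_eq_zero.1 ab with rfl | rfl <;> nlinarith)
      ⟨⟨ht.1, (up z h3.1 h3.2 t t0).1⟩, ht.1, (up z h3.1 h3.2 t t0).2⟩ ht.2
    exact lim_cl Metric.isOpen_ball (fun x hx => h4 ⟨⟨hx.1, hx.2.1⟩, hx.1, hx.2.2⟩) hy
      (up y (by nlinarith [mul_nonneg b0 D0.le]) (by nlinarith [mul_nonneg a0 D0.le]))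

/-- The frontier of the region bounded by `C` is `C`. -/
theorem frontier_inside (hC : IsCompact C) (hc : IsConnected C)
    (h : ∀ c ∈ C, ∃ w1 w2 : Pt, w1 ≠ 0 ∧
      ∀ᶠ z in 𝓝 c, z ∈ C → ∃ t : ℝ, 0 ≤ t ∧ (z = c + t • w1 ∨ z = c + t • w2)) :
    frontier (outside C)ᶜ = C := by
  rw [frontier_compl]
  refine Subset.antisymm (frontier_out hC.isClosed) ?_
  have h1 : (frontier (outside C)).Nonempty := by
    refine nonempty_frontier_iff.2 ⟨?_, fun h1 => ?_⟩
    · by_contra h1
      have h2 := (far_out hC.isBounded).1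
      rw [not_nonempty_iff_eq_empty.1 h1, compl_empty] at h2
      exact NormedSpace.unbounded_univ ℝ Pt h2
    · obtain ⟨z, hz⟩ := hc.nonempty
      exact outside_sub (h1 ▸ mem_univ z) hz
  obtain ⟨z, hz⟩ := h1
  have h2 : C ⊆ {c | ∀ᶠ y in 𝓝 c, y ∈ C → y ∈ closure (outside C)} := by
    have h3 : ∀ c ∈ C, c ∈ closure (outside C) →
        ∀ᶠ y in 𝓝 c, y ∈ C → y ∈ closure (outside C) := by
      intro c h3 h4
      obtain ⟨w1, w2, h5, h6⟩ := h c h3
      exact local_out hC.isClosed h5 h4 h6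
    by_contra h4
    obtain ⟨c, h5, h6⟩ := not_subset.1 h4
    obtain ⟨y, h7, h8, h9⟩ := hc.isPreconnected _ _ isOpen_setOfPred_eventually_nhds
      isClosed_closure.isOpen_compl
      (fun x hx => (em (x ∈ closure (outside C))).imp (h3 x hx) id)
      ⟨z, frontier_out hC.isClosed hz, h3 z (frontier_out hC.isClosed hz) hz.1⟩
      ⟨c, h5, fun h => h6 (h3 c h5 h)⟩
    exact h9 (h8.self_of_nhds h7)
  intro c h3
  rw [(open_out hC.isClosed).frontier_eq]
  exact ⟨(h2 h3).self_of_nhds h3, fun h4 => outside_sub h4 h3⟩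

end Pool.Agent.Lib.MP_1b4b80_lc
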