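import Pool.Agent.Lib.MP_1b4b80_lc.Geo

/-!
# What a guard that moves along a rational line sees near a point of an edge
-/

set_option autoImplicit false

noncomputable section

namespace Pool.Agent.Lib.MP_1b4b80_lc

open Set Filter Topology

/-- A point of a parametrised line. -/
def ln (p u : Pt) (x : ℝ) : Pt := p + x • u

@[fun_prop]
theorem cont_ln {ι : Type*} [TopologicalSpace ι] {p u : Pt} {x : ι → ℝ} (hx : Continuous x) :
    Continuous fun z => ln p u (x z) := by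
  unfold ln; fun_prop

theorem RP.sub {a b : Pt} (ha : RP a) (hb : RP b) : RP (a - b) :=
  ⟨K.sub_mem ha.1 hb.1, K.sub_mem ha.2 hb.2⟩

theorem RP.ln {a b : Pt} {x : ℝ} (ha : RP a) (hb : RP b) (hx : x ∈ K) : RP (ln a b x) :=
  ⟨K.add_mem ha.1 (K.mul_mem hx hb.1), K.add_mem ha.2 (K.mul_mem hx hb.2)⟩

theorem RP.det {a b : Pt} (ha : RP a) (hb : RP b) : det a b ∈ K :=
  K.sub_mem (K.mul_mem ha.1 hb.2) (K.mul_mem ha.2 hb.1)

theorem RP.ori {a b c : Pt} (ha : RP a) (hb : RP b) (hc : RP c) : ori a b c ∈ K :=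
  (hb.sub ha).det (hc.sub ha)

theorem gen {c0 c1 x : ℝ} (h0 : c0 ∈ K) (h1 : c1 ∈ K) (hx : x ∉ K) (h : c0 + c1 * x = 0) :
    c0 = 0 ∧ c1 = 0 := by
  by_cases h2 : c1 = 0
  · exact ⟨by simpa [h2] using h, h2⟩
  · refine absurd ?_ hx
    have : x = -c0 / c1 := by field_simp; linarith
    rw [this]
    exact K.div_mem (K.neg_mem h0) h1

theorem ori_ln (p q a u : Pt) (x : ℝ) : ori p q (ln a u x) = ori p q a + det (q - p) u * x := by
  simp [ori, det, ln]; ring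

theorem gen_ori {p q a u : Pt} {x0 : ℝ} (hp : RP p) (hq : RP q) (ha : RP a) (hu : RP u)
    (hx : x0 ∉ K) (h : ori p q (ln a u x0) = 0) (x : ℝ) : ori p q (ln a u x) = 0 := by
  rw [ori_ln] at h ⊢
  obtain ⟨h1, h2⟩ := gen (hp.ori hq ha) ((hq.sub hp).det hu) hx h
  rw [h1, h2]; ring

theorem ori_edge (p q : Pt) (s : ℝ) : ori p q (ln p (q - p) s) = 0 := ori_self _ _ _

theorem ln_mem {p q : Pt} {s : ℝ} (hs : s ∈ Icc (0 : ℝ) 1) : ln p (q - p) s ∈ segment ℝ p q :=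
  mem_seg.2 ⟨s, hs.1, hs.2, rfl⟩

/-- Eventually of one strict sign. -/
def Sg {ι : Type*} (L : Filter ι) (φ : ι → ℝ) : Prop :=
  (∀ᶠ z in L, 0 < φ z) ∨ ∀ᶠ z in L, φ z < 0

theorem Sg.mul {ι : Type*} {L : Filter ι} {φ ψ : ι → ℝ} (h : Sg L φ) (h' : Sg L ψ) :
    Sg L fun z => φ z * ψ z := by
  rcases h with h | h <;> rcases h' with h' | h'
  · exact Or.inl ((h.and h').mono fun z hz => mul_pos hz.1 hz.2)
  · exact Or.inr ((h.and h').mono fun z hz => mul_neg_of_pos_of_neg hz.1 hz.2)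
  · exact Or.inr ((h.and h').mono fun z hz => mul_neg_of_neg_of_pos hz.1 hz.2)
  · exact Or.inl ((h.and h').mono fun z hz => mul_pos_of_neg_of_neg hz.1 hz.2)

theorem Sg.ne {ι : Type*} {L : Filter ι} {φ : ι → ℝ} (h : Sg L φ) : ∀ᶠ z in L, φ z ≠ 0 :=
  h.elim (fun h => h.mono fun _ hz => hz.ne') fun h => h.mono fun _ hz => hz.ne

theorem ev_pos {ι : Type*} [TopologicalSpace ι] {z0 : ι} {φ : ι → ℝ} (hφ : Continuous φ)
    (h : 0 < φ z0) : ∀ᶠ z in 𝓝 z0, 0 < φ z :=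
  (hφ.tendsto z0).eventually (lt_mem_nhds h)

theorem sg_of_ne {ι : Type*} [TopologicalSpace ι] {L : Filter ι} {z0 : ι} {φ : ι → ℝ}
    (hL : L ≤ 𝓝 z0) (hφ : Continuous φ) (h : φ z0 ≠ 0) : Sg L φ := by
  rcases lt_or_gt_of_ne h with h | h
  · exact Or.inr (hL ((hφ.tendsto z0).eventually (gt_mem_nhds h)))
  · exact Or.inl (hL (ev_pos hφ h))

/-- A guard at an irrational parameter of a rational line (which may be a single point). -/
structure Grd (P : Set Pt) (a u : Pt) (x0 : ℝ) : Prop where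
  rp : RP a
  ru : RP u
  irr : x0 ∉ K
  near : ∀ᶠ x in 𝓝 x0, ln a u x ∈ frontier P ∧ Sees P (ln a u x) (ln a u x0)
  side : ∀ c c', Sees P (ln a u x0) c → Sees P (ln a u x0) c' →
    0 ≤ det u (c - ln a u x0) * det u (c' - ln a u x0)

/-- The guard `A` sees `Q` past the corner `r`. -/
structure Mov (P : Set Pt) (E : Set (Pt × Pt)) (A u Q r : Pt) (σ l : ℝ) : Prop where
  l0 : 0 < l
  l1 : l < 1
  hr : r = A + l • (Q - A)
  n : det u (Q - A) ≠ 0
  see : Sees P A Q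
  vx : ∃ w, (r, w) ∈ E
  side : ∀ w, (r, w) ∈ E → 0 < σ * ori A Q w
  uniq : ∀ w w', (w, w') ∈ E → ori A Q w = 0 → w = r

variable {P : Set Pt} {E : Set (Pt × Pt)} {a u p q : Pt} {x0 s0 : ℝ}

theorem edge_local (G : Gal P E) (hg : Grd P a u x0) (nc : ori p q (ln a u x0) ≠ 0)
    {L : Filter (ℝ × ℝ)} (hL : L ≤ 𝓝 (x0, s0)) {p' q' : Pt} (hf : (p', q') ∈ E)
    (hb : (Sg L fun z => ori p' q' (ln p (q - p) z.2)) ∨ ∀ s, ori p' q' (ln p (q - p) s) = 0)
    (hp : p' ≠ ln a u x0 → Sg L fun z => ori (ln a u z.1) (ln p (q - p) z.2) p')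
    (hq : q' ≠ ln a u x0 → Sg L fun z => ori (ln a u z.1) (ln p (q - p) z.2) q') :
    (∀ᶠ z in L, ∀ c ∈ openSegment ℝ (ln a u z.1) (ln p (q - p) z.2), c ∉ segment ℝ p' q') ∨
      ∀ᶠ z in L, ¬ Sees P (ln a u z.1) (ln p (q - p) z.2) := by
  by_cases h0 : ori p' q' (ln a u x0) = 0
  · have h1 := gen_ori (G.rat _ _ hf) (G.rat _ _ (G.sym _ _ hf)) hg.rp hg.ru hg.irr h0
    rcases hb with hb | hb
    · exact Or.inl (hb.ne.mono fun z hz => avoid2 (by simp [h1]) (Or.inr hz))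
    · exact absurd (ori_three (G.ne _ _ hf) (by simpa [ln] using hb 0) (by simpa [ln] using hb 1)
        h0) nc
  have ha : Sg L fun z => ori p' q' (ln a u z.1) := sg_of_ne hL (by fun_prop) h0
  rcases hb with hb | hb
  · rcases ha.mul hb with h1 | h1
    · exact Or.inl (h1.mono fun z hz => avoid2 hz.le (Or.inl (left_ne_zero_of_mul hz.ne')))
    · rcases (hp fun h => h0 (h ▸ ori_left _ _)).mul (hq fun h => h0 (h ▸ ori_right _ _))
        with h2 | h2
      · exact Or.inl (h2.mono fun z hz => avoid1 hz)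
      · exact Or.inr ((h2.and h1).mono fun z hz => G.cross hf hz.1 hz.2)
  · exact Or.inl (ha.ne.mono fun z hz => avoid2 (by simp [hb]) (Or.inl hz))

theorem coll (G : Gal P E) (hg : Grd P a u x0) (he : (p, q) ∈ E)
    (hc : ori p q (ln a u x0) = 0) (s0 : ℝ) :
    (∀ᶠ z : ℝ × ℝ in 𝓝 (x0, s0), z.2 ∈ Icc (0 : ℝ) 1 → Sees P (ln a u z.1) (ln p (q - p) z.2)) ∨
      ∀ s ∈ Icc (0 : ℝ) 1, ¬ Sees P (ln a u x0) (ln p (q - p) s) := by
  by_cases h : ∃ s ∈ Icc (0 : ℝ) 1, Sees P (ln a u x0) (ln p (q - p) s)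
  · obtain ⟨s, hs, h1⟩ := h
    have h2 := gen_ori (G.rat _ _ he) (G.rat _ _ (G.sym _ _ he)) hg.rp hg.ru hg.irr hc
    left
    filter_upwards [(continuous_fst.tendsto (x0, s0)).eventually hg.near] with z hz hz'
    exact col3 (G.ne _ _ he) (h2 _) (ori_edge _ _ _) (ori_edge _ _ _)
      (col3 (G.ne _ _ he) (h2 _) hc (ori_edge _ _ _) hz.2 h1)
      ((G.sees_edge he).sub (ln_mem hs) (ln_mem hz'))
  · push Not at h
    exact Or.inr h

theorem at_x0 {R : ℝ × ℝ → Prop} (h : ∀ᶠ z in 𝓝 (x0, s0), R z) : ∀ᶠ s in 𝓝 s0, R (x0, s) :=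
  ((show Continuous fun s : ℝ => (x0, s) by fun_prop).tendsto s0).eventually h

/-- One side of a rational point of an edge is seen from all near positions or hidden. -/
theorem side_rat (G : Gal P E) (hg : Grd P a u x0) (he : (p, q) ∈ E) (hs : s0 ∈ K) {δ : ℝ}
    (hδ : δ ≠ 0) :
    (∀ᶠ z : ℝ × ℝ in 𝓝 (x0, s0), 0 < δ * (z.2 - s0) → z.2 ∈ Icc (0 : ℝ) 1 →
      Sees P (ln a u z.1) (ln p (q - p) z.2)) ∨
    ∀ᶠ s in 𝓝 s0, 0 < δ * (s - s0) → s ∈ Icc (0 : ℝ) 1 →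
      ¬ Sees P (ln a u x0) (ln p (q - p) s) := by
  by_cases nc : ori p q (ln a u x0) = 0
  · rcases coll G hg he nc s0 with h | h
    · exact Or.inl (h.mono fun z hz _ => hz)
    · exact Or.inr (Eventually.of_forall fun s _ => h s)
  let T : Set (ℝ × ℝ) := {z | 0 < δ * (z.2 - s0)}
  have hL : 𝓝[T] (x0, s0) ≤ 𝓝 (x0, s0) := nhdsWithin_le_nhds
  have hT : Sg (𝓝[T] (x0, s0)) fun z => z.2 - s0 := by
    rcases lt_or_gt_of_ne hδ with h | h
    · exact Or.inr (eventually_mem_nhdsWithin.mono fun z hz => neg_of_mul_pos_right hz h.le)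
    · exact Or.inl (eventually_mem_nhdsWithin.mono fun z hz => (pos_iff_pos_of_mul_pos hz).1 h)
  have hQ : RP (ln p (q - p) s0) :=
    (G.rat _ _ he).ln ((G.rat _ _ (G.sym _ _ he)).sub (G.rat _ _ he)) hs
  have hh : ∀ w, RP w → w ≠ ln a u x0 →
      Sg (𝓝[T] (x0, s0)) fun z => ori (ln a u z.1) (ln p (q - p) z.2) w := by
    intro w hw hne
    by_cases h0 : ori (ln a u x0) (ln p (q - p) s0) w = 0
    swap
    · exact sg_of_ne hL (by fun_prop) h0
    have h1 := gen_ori hQ hw hg.rp hg.ru hg.irr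
      (by rw [← h0]; simp only [ori, det, Prod.fst_sub, Prod.snd_sub]; ring)
    have h2 : (fun z : ℝ × ℝ => ori (ln a u z.1) (ln p (q - p) z.2) w) =
        fun z => (z.2 - s0) * det (q - p) (w - ln a u z.1) := by
      funext z
      have h3 := h1 z.1
      simp only [ori, det, ln, Prod.fst_sub, Prod.snd_sub, Prod.fst_add, Prod.snd_add,
        Prod.smul_fst, Prod.smul_snd, smul_eq_mul] at h3 ⊢
      linear_combination h3
    rw [h2]
    refine hT.mul (sg_of_ne hL (by fun_prop) fun h3 => nc ?_)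
    obtain ⟨t, ht⟩ := on_line hne.symm (x := ln p (q - p) s0)
      (by rw [← neg_eq_zero, ← h0]; simp only [ori, det, Prod.fst_sub, Prod.snd_sub]; ring)
    have h4 := ori_edge p q s0
    rw [ht] at h4
    simp only [ori, det, Prod.fst_sub, Prod.snd_sub, Prod.fst_add, Prod.snd_add,
      Prod.smul_fst, Prod.smul_snd, smul_eq_mul] at h3 h4 ⊢
    linear_combination h4 - t * h3
  have hid : (∀ᶠ z in 𝓝[T] (x0, s0), ¬ Sees P (ln a u z.1) (ln p (q - p) z.2)) →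
      ∀ᶠ s in 𝓝 s0, 0 < δ * (s - s0) → s ∈ Icc (0 : ℝ) 1 →
        ¬ Sees P (ln a u x0) (ln p (q - p) s) := fun h =>
    (at_x0 (eventually_nhdsWithin_iff.1 h)).mono fun s h1 h2 _ => h1 h2
  by_cases h : ∀ᶠ z in 𝓝[T] (x0, s0), ¬ Sees P (ln a u z.1) (ln p (q - p) z.2)
  · exact Or.inr (hid h)
  have av : ∀ᶠ z in 𝓝[T] (x0, s0), ∀ e ∈ E,
      ∀ c ∈ openSegment ℝ (ln a u z.1) (ln p (q - p) z.2), c ∉ segment ℝ e.1 e.2 := by
    rw [eventually_all_finite G.fin]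
    intro e hf
    refine (edge_local G hg nc hL hf ?_ (hh _ (G.rat _ _ hf))
      (hh _ (G.rat _ _ (G.sym _ _ hf)))).resolve_right h
    by_cases h0 : ori e.1 e.2 (ln p (q - p) s0) = 0
    swap
    · exact Or.inl (sg_of_ne hL (by fun_prop) h0)
    have h1 : ∀ s, ori e.1 e.2 (ln p (q - p) s) = (s - s0) * det (e.2 - e.1) (q - p) := by
      intro s
      rw [ori_ln] at h0 ⊢
      linear_combination h0
    by_cases h2 : det (e.2 - e.1) (q - p) = 0
    · exact Or.inr fun s => by rw [h1, h2, mul_zero]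
    · simp only [h1]
      exact Or.inl (hT.mul (sg_of_ne hL continuous_const h2))
  obtain ⟨ε, hε, h1⟩ := Metric.eventually_nhds_iff_ball.1 (eventually_nhdsWithin_iff.1 av)
  have h2 : ∀ z ∈ Metric.ball (x0, s0) ε ∩ T,
      ∀ c ∈ openSegment ℝ (ln a u z.1) (ln p (q - p) z.2), c ∉ frontier P := by
    intro z hz c hc h3
    obtain ⟨e, h4, h5⟩ := (G.fr c).1 h3
    exact h1 z hz.1 hz.2 e h4 c hc h5
  let m : ℝ × ℝ → Pt := fun z => ln a u z.1 + (1 / 2 : ℝ) • (ln p (q - p) z.2 - ln a u z.1)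
  have hm : ∀ z, m z ∈ openSegment ℝ (ln a u z.1) (ln p (q - p) z.2) := fun z =>
    mem_oseg.2 ⟨_, by norm_num, by norm_num, rfl⟩
  have cv : Convex ℝ (Metric.ball (x0, s0) ε ∩ T) := by
    refine (convex_ball _ ε).inter (convex_iff_segment_subset.2 fun x hx y hy z hz => ?_)
    obtain ⟨t, t0, t1, rfl⟩ := mem_seg.1 hz
    simp only [T, mem_ofPred_eq, Prod.snd_add, Prod.smul_snd, Prod.snd_sub, smul_eq_mul]
      at hx hy ⊢
    rcases t0.eq_or_lt with rfl | t0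
    · simpa using hx
    · nlinarith [mul_pos t0 hy, mul_nonneg (sub_nonneg.2 t1) hx.le]
  rcases inout G.cl (cv.isPreconnected.image m (by simp only [m]; fun_prop))
    (by rintro _ ⟨z, hz, rfl⟩; exact h2 z hz _ (hm z)) with h3 | h3
  · left
    filter_upwards [Metric.ball_mem_nhds (x0, s0) hε] with z hz hz' _
    exact sees_of_avoid G.cl (h2 z ⟨hz, hz'⟩) (hm z) (interior_subset (h3 ⟨z, ⟨hz, hz'⟩, rfl⟩))
  · refine absurd (eventually_nhdsWithin_iff.2 ?_) h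
    filter_upwards [Metric.ball_mem_nhds (x0, s0) hε] with z hz hz' h4
    exact h3 ⟨z, ⟨hz, hz'⟩, rfl⟩ (h4 (openSegment_subset_segment _ _ _ (hm z)))

theorem ori_at (A Q w : Pt) (l : ℝ) : ori (A + l • (Q - A)) w A * ori (A + l • (Q - A)) w Q =
    -(l * (1 - l)) * (ori A Q w * ori A Q w) := by
  simp [ori, det]; ring

/-- Behind a corner, on the side of one of its edges, points are hidden. -/
theorem hid (G : Gal P E) {r w A Q : Pt} {l : ℝ} (h : (r, w) ∈ E) (l0 : 0 < l) (l1 : l < 1)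
    (hr : r = A + l • (Q - A)) (hw : ori A Q w ≠ 0) :
    ∀ᶠ c in 𝓝 Q, ori A c r * ori A Q w < 0 → ¬ Sees P A c := by
  have h1 : ∀ᶠ c in 𝓝 Q, 0 < ori A c w * ori A Q w :=
    ev_pos (φ := fun c => ori A c w * ori A Q w) (by fun_prop) (mul_self_pos.2 hw)
  have h2 : ∀ᶠ c in 𝓝 Q, 0 < -(ori r w A * ori r w c) := by
    refine ev_pos (φ := fun c => -(ori r w A * ori r w c)) (by fun_prop) ?_
    simp only [hr, ori_at]
    nlinarith [mul_pos (mul_pos l0 (sub_pos.2 l1)) (mul_self_pos.2 hw)]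
  filter_upwards [h1, h2] with c h3 h4 h5
  refine G.cross h ?_ (neg_pos.1 h4)
  by_contra h6
  push Not at h6
  nlinarith [mul_neg_of_neg_of_pos h5 h3, mul_nonneg h6 (mul_self_nonneg (ori A Q w))]

/-- The three possible pictures at an irrational point of an edge. -/
theorem side_irr (G : Gal P E) (hg : Grd P a u x0) (he : (p, q) ∈ E) (hs : s0 ∉ K) :
    (∀ᶠ z : ℝ × ℝ in 𝓝 (x0, s0), z.2 ∈ Icc (0 : ℝ) 1 → Sees P (ln a u z.1) (ln p (q - p) z.2)) ∨
    (∀ᶠ s in 𝓝 s0, s ≠ s0 → s ∈ Icc (0 : ℝ) 1 → ¬ Sees P (ln a u x0) (ln p (q - p) s)) ∨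
    (ori p q (ln a u x0) ≠ 0 ∧ ∃ r σ l, (σ = 1 ∨ σ = -1) ∧
      Mov P E (ln a u x0) u (ln p (q - p) s0) r σ l ∧ ∀ᶠ z : ℝ × ℝ in 𝓝 (x0, s0),
        0 < σ * ori (ln a u z.1) (ln p (q - p) z.2) r →
          Sees P (ln a u z.1) (ln p (q - p) z.2)) := by
  by_cases nc : ori p q (ln a u x0) = 0
  · rcases coll G hg he nc s0 with h | h
    · exact Or.inl h
    · exact Or.inr (Or.inl (Eventually.of_forall fun s _ => h s))
  by_cases see : Sees P (ln a u x0) (ln p (q - p) s0)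
  swap
  · right; left
    filter_upwards [(closed_sees G.cl (a := fun _ => ln a u x0) (b := fun s => ln p (q - p) s)
      continuous_const (by fun_prop)).isOpen_compl.mem_nhds see] with s h _ _ using h
  have rp := G.rat _ _ he
  have rd := (G.rat _ _ (G.sym _ _ he)).sub rp
  obtain ⟨A, hA⟩ : ∃ A, A = ln a u x0 := ⟨_, rfl⟩
  obtain ⟨Q, hQ⟩ : ∃ Q, Q = ln p (q - p) s0 := ⟨_, rfl⟩
  have hAQ : A ≠ Q := fun h => nc (by rw [← hA, h, hQ, ori_edge])
  have two : ∀ w w', RP w → RP w' → ori w w' Q = 0 → ori w w' A = 0 → w = w' := by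
    intro w w' h1 h2 h3 h4
    by_contra h5
    have h6 := gen_ori h1 h2 rp rd hs (hQ ▸ h3)
    exact nc (ori_three h5 (by simpa [ln] using h6 0) (by simpa [ln] using h6 1) (hA ▸ h4))
  have uniq : ∀ w w', RP w → RP w' → ori A Q w = 0 → ori A Q w' = 0 → w = w' :=
    fun w w' h1 h2 h3 h4 => two w w' h1 h2 (ori_three hAQ h3 h4 (ori_right _ _))
      (ori_three hAQ h3 h4 (ori_left _ _))
  obtain ⟨t, t0, t1, ht⟩ : ∃ t : ℝ, 0 < t ∧ t < 1 ∧ A + t • (Q - A) ∉ frontier P := by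
    by_contra h
    push Not at h
    have h1 : ∀ t : ℝ, ∃ e : Pt × Pt, t ∈ Ioo (0 : ℝ) 1 →
        e ∈ E ∧ A + t • (Q - A) ∈ segment ℝ e.1 e.2 := by
      intro t
      by_cases h2 : t ∈ Ioo (0 : ℝ) 1
      · obtain ⟨e, h3⟩ := (G.fr _).1 (h t h2.1 h2.2)
        exact ⟨e, fun _ => h3⟩
      · exact ⟨(p, q), fun h3 => absurd h3 h2⟩
    choose f hf using h1
    obtain ⟨s, h2, t, h3, h4, h5⟩ := (Ioo_infinite (zero_lt_one' ℝ)).exists_ne_map_eq_of_mapsTo
      (f := f) (fun t ht => (hf t ht).1) G.fin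
    obtain ⟨h6, h7⟩ := hf s h2
    obtain ⟨-, h8⟩ := hf t h3
    rw [← h5] at h8
    obtain ⟨s', -, -, e1⟩ := mem_seg.1 h7
    obtain ⟨t', -, -, e2⟩ := mem_seg.1 h8
    have e3 := ori_self (f s).1 (f s).2 s'
    have e4 := ori_self (f s).1 (f s).2 t'
    rw [← e1, ori_comb] at e3
    rw [← e2, ori_comb] at e4
    have e5 : ori (f s).1 (f s).2 Q = ori (f s).1 (f s).2 A :=
      mul_left_cancel₀ (sub_ne_zero.2 h4) (by linear_combination e3 - e4)
    rw [e5] at e3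
    have e6 : ori (f s).1 (f s).2 A = 0 := by linear_combination e3
    exact G.ne _ _ h6 (two _ _ (G.rat _ _ h6) (G.rat _ _ (G.sym _ _ h6)) (e5.trans e6) e6)
  have av : ∀ᶠ z : ℝ × ℝ in 𝓝 (x0, s0), (∀ e ∈ E,
      ∀ c ∈ openSegment ℝ (ln a u z.1) (ln p (q - p) z.2), c ∉ segment ℝ e.1 e.2) →
      Sees P (ln a u z.1) (ln p (q - p) z.2) := by
    have h1 : A + t • (Q - A) ∈ interior P := by
      by_contra h2
      exact ht ⟨subset_closure (see (hA ▸ hQ ▸ mem_seg.2 ⟨t, t0.le, t1.le, rfl⟩)), h2⟩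
    have h2 : Continuous fun z : ℝ × ℝ =>
        ln a u z.1 + t • (ln p (q - p) z.2 - ln a u z.1) := by fun_prop
    filter_upwards [(h2.tendsto (x0, s0)).eventually
      (isOpen_interior.mem_nhds (by simpa only [hA, hQ] using h1))] with z hz h3
    refine sees_of_avoid G.cl (fun c hc h4 => ?_) (mem_oseg.2 ⟨t, t0, t1, rfl⟩)
      (interior_subset hz)
    obtain ⟨e, h5, h6⟩ := (G.fr c).1 h4
    exact h3 e h5 c hc h6
  have far : ∀ e ∈ E, (e.1 ≠ A → ori A Q e.1 ≠ 0) → (e.2 ≠ A → ori A Q e.2 ≠ 0) →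
      ∀ᶠ z : ℝ × ℝ in 𝓝 (x0, s0),
        ∀ c ∈ openSegment ℝ (ln a u z.1) (ln p (q - p) z.2), c ∉ segment ℝ e.1 e.2 := by
    intro e hf h1 h2
    rw [hA, hQ] at h1 h2
    refine (edge_local G hg nc le_rfl hf ?_ (fun h => sg_of_ne le_rfl (by fun_prop) (h1 h))
      fun h => sg_of_ne le_rfl (by fun_prop) (h2 h)).resolve_right fun h => h.self_of_nhds see
    by_cases h0 : ori e.1 e.2 (ln p (q - p) s0) = 0
    · exact Or.inr (gen_ori (G.rat _ _ hf) (G.rat _ _ (G.sym _ _ hf)) rp rd hs h0)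
    · exact Or.inl (sg_of_ne le_rfl (by fun_prop) h0)
  by_cases hv : ∃ r w, (r, w) ∈ E ∧ r ≠ A ∧ ori A Q r = 0
  swap
  · push Not at hv
    left
    filter_upwards [av, (eventually_all_finite G.fin).2 fun e hf =>
      far e hf (hv _ _ hf) (hv _ _ (G.sym _ _ hf))] with z h1 h2 _ using h1 h2
  obtain ⟨r, w0, hw0, hrA, hr0⟩ := hv
  have rr := G.rat _ _ hw0
  obtain ⟨l, hr⟩ := on_line hAQ hr0
  have hw : ∀ w, (r, w) ∈ E → ori A Q w ≠ 0 := fun w h1 h2 =>
    G.ne _ _ h1 (uniq _ _ rr (G.rat _ _ (G.sym _ _ h1)) hr0 h2)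
  have red : ∀ C : ℝ × ℝ → Prop, (∀ w, (r, w) ∈ E → ∀ᶠ z : ℝ × ℝ in 𝓝 (x0, s0), C z →
      ∀ c ∈ openSegment ℝ (ln a u z.1) (ln p (q - p) z.2), c ∉ segment ℝ r w) →
      ∀ᶠ z : ℝ × ℝ in 𝓝 (x0, s0), C z → Sees P (ln a u z.1) (ln p (q - p) z.2) := by
    intro C hC
    have h1 : ∀ᶠ z : ℝ × ℝ in 𝓝 (x0, s0), ∀ e ∈ E, C z →
        ∀ c ∈ openSegment ℝ (ln a u z.1) (ln p (q - p) z.2), c ∉ segment ℝ e.1 e.2 := by
      rw [eventually_all_finite G.fin]
      rintro ⟨e1, e2⟩ hf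
      by_cases h2 : e1 = r
      · subst h2
        exact hC _ hf
      by_cases h3 : e2 = r
      · subst h3
        simpa only [segment_symm ℝ e1 e2] using hC _ (G.sym _ _ hf)
      exact (far _ hf (fun _ h => h2 (uniq _ _ (G.rat _ _ hf) rr h hr0))
        fun _ h => h3 (uniq _ _ (G.rat _ _ (G.sym _ _ hf)) rr h hr0)).mono fun z hz _ => hz
    filter_upwards [av, h1] with z h2 h3 h4 using h2 fun e hf => h3 e hf h4
  by_cases hl : 0 < l ∧ l < 1
  swap
  · left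
    have l0 : l ≠ 0 := fun h => hrA (by simp [hr, h])
    have l1 : l ≠ 1 := by
      intro h
      have h1 : r = Q := by simp [hr, h]
      obtain ⟨-, hk⟩ := gen (K.sub_mem rp.1 rr.1) rd.1 hs (by rw [h1, hQ]; simp [ln]; ring)
      obtain ⟨-, hk'⟩ := gen (K.sub_mem rp.2 rr.2) rd.2 hs (by rw [h1, hQ]; simp [ln]; ring)
      exact absurd (sub_eq_zero.1 (Prod.ext hk hk' : q - p = 0)).symm (G.ne _ _ he)
    have l2 : 0 < -(l * (1 - l)) := by
      rcases lt_or_gt_of_ne l0 with h | h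
      · nlinarith
      · have : 1 < l := lt_of_le_of_ne (not_lt.1 fun h' => hl ⟨h, h'⟩) l1.symm
        nlinarith
    refine (red (fun _ => True) fun w h1 => ?_).mono fun z hz _ => hz trivial
    have h2 : 0 < ori r w (ln a u x0) * ori r w (ln p (q - p) s0) := by
      rw [← hA, ← hQ, hr, ori_at]
      exact mul_pos l2 (mul_self_pos.2 (hw w h1))
    exact (ev_pos (z0 := (x0, s0)) (φ := fun z : ℝ × ℝ =>
      ori r w (ln a u z.1) * ori r w (ln p (q - p) z.2)) (by fun_prop) h2).mono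
      fun z hz _ => avoid2 hz.le (Or.inl (left_ne_zero_of_mul hz.ne'))
  right
  by_cases hσ : ∃ σ : ℝ, (σ = 1 ∨ σ = -1) ∧ ∀ w, (r, w) ∈ E → 0 < σ * ori A Q w
  · obtain ⟨σ, h1, h2⟩ := hσ
    refine Or.inr ⟨nc, r, σ, l, h1, ?_, red _ fun w h3 => ?_⟩
    · rw [← hA, ← hQ]
      refine ⟨hl.1, hl.2, hr, fun h3 => hrA ?_, hA ▸ hQ ▸ see, ⟨_, hw0⟩, h2,
        fun w w' h3 h4 => uniq _ _ (G.rat _ _ h3) rr h4 hr0⟩
      have h4 : ∀ x ∈ K, ln a u x = r := by
        intro x hx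
        have h5 : ln a u x = A + (x - x0) • u := by rw [hA]; simp only [ln]; module
        refine two _ _ (hg.rp.ln hg.ru hx) rr ?_ ?_ <;>
        · rw [h5, hr]
          simp only [ori, det, Prod.fst_sub, Prod.snd_sub, Prod.fst_add, Prod.snd_add,
            Prod.smul_fst, Prod.smul_snd, smul_eq_mul] at h3 ⊢
          first
            | linear_combination (x - x0) * (l - 1) * h3
            | linear_combination (x - x0) * l * h3
      have h5 := h4 0 K.zero_mem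
      have h6 := h4 1 K.one_mem
      simp only [ln, zero_smul, add_zero, one_smul] at h5 h6
      have h7 : u = 0 := by rw [← h5] at h6; simpa using h6
      rw [hA, ← h5]
      simp [ln, h7]
    · have h4 := h2 w h3
      rw [hA, hQ] at h4
      refine (ev_pos (z0 := (x0, s0)) (φ := fun z : ℝ × ℝ =>
        σ * ori (ln a u z.1) (ln p (q - p) z.2) w) (by fun_prop) h4).mono
        fun z hz h5 => avoid1 ?_
      have h6 := mul_pos h5 hz
      rcases h1 with rfl | rfl <;> simpa using h6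
  · left
    push Not at hσ
    obtain ⟨w1, h1, h2⟩ := hσ 1 (Or.inl rfl)
    obtain ⟨w2, h3, h4⟩ := hσ (-1) (Or.inr rfl)
    have h5 : ori A Q w1 < 0 := lt_of_le_of_ne (by linarith) (hw _ h1)
    have h6 : 0 < ori A Q w2 := lt_of_le_of_ne (by linarith) (hw _ h3).symm
    have h7 : Tendsto (fun s => ln p (q - p) s) (𝓝 s0) (𝓝 Q) := by
      rw [hQ]
      exact (show Continuous fun s => ln p (q - p) s by fun_prop).tendsto s0
    filter_upwards [h7.eventually (hid G h1 hl.1 hl.2 hr h5.ne),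
      h7.eventually (hid G h3 hl.1 hl.2 hr h6.ne')] with s h8 h9 h10 _
    rw [← hA] at nc ⊢
    have h11 : ori A (ln p (q - p) s) r = -(l * (s - s0) * ori p q A) := by
      rw [hr, hQ]
      simp [ori, det, ln]; ring
    have h12 : ori A (ln p (q - p) s) r ≠ 0 := by
      rw [h11]
      exact neg_ne_zero.2 (mul_ne_zero (mul_ne_zero hl.1.ne' (sub_ne_zero.2 h10)) nc)
    rcases lt_or_gt_of_ne h12 with h13 | h13
    · exact h9 (mul_neg_of_neg_of_pos h13 h6)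
    · exact h8 (mul_neg_of_pos_of_neg h13 h5)

end Pool.Agent.Lib.MP_1b4b80_lc
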