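import Pool.Agent.Lib.MP_1b4b80_lc.Crit

/-!
# Two boundary guards can be moved to rational positions
-/

set_option autoImplicit false

noncomputable section

namespace Pool.Agent.Lib.MP_1b4b80_lc

open Set Filter Topology

variable {P : Set Pt} {E : Set (Pt × Pt)} {a u b v p q : Pt} {x0 y0 s0 : ℝ}

/-- Points of the edge on one side of `s0` are hidden from `A`. -/
def HidOn (P : Set Pt) (p q A : Pt) (s0 δ : ℝ) : Prop :=
  ∀ᶠ s in 𝓝 s0, 0 < δ * (s - s0) → s ∈ Icc (0 : ℝ) 1 → ¬ Sees P A (ln p (q - p) s)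

theorem mov_hid (G : Gal P E) {A r : Pt} {σ l : ℝ} (h : Mov P E A u (ln p (q - p) s0) r σ l) :
    HidOn P p q A s0 (σ * ori p q A) := by
  obtain ⟨w, hw⟩ := h.vx
  have h1 := h.side _ hw
  filter_upwards [((show Continuous fun s => ln p (q - p) s by fun_prop).tendsto s0).eventually
    (hid G hw h.l0 h.l1 h.hr (right_ne_zero_of_mul h1.ne'))] with s h2 h3 _
  refine h2 ?_
  have h4 : ori A (ln p (q - p) s) r = -(l * (ori p q A * (s - s0))) := by
    rw [h.hr]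
    simp [ori, det, ln]; ring
  rw [h4]
  have h5 := sg_pp (σ := σ) (x := ori p q A * (s - s0)) (by linarith) h1
  nlinarith [mul_pos h.l0 h5]

theorem clash {A B : Pt} {δ δ' : ℝ} (hs : s0 ∈ Ioo (0 : ℝ) 1)
    (cov : ∀ s ∈ Icc (0 : ℝ) 1, Sees P A (ln p (q - p) s) ∨ Sees P B (ln p (q - p) s))
    (hδ : 0 < δ * δ') (h : HidOn P p q A s0 δ) (h' : HidOn P p q B s0 δ') : False := by
  have h1 : Tendsto (fun t : ℝ => s0 + t * δ) (𝓝[>] 0) (𝓝 s0) := by
    have : Continuous fun t : ℝ => s0 + t * δ := by fun_prop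
    simpa using (this.tendsto 0).mono_left nhdsWithin_le_nhds
  obtain ⟨t, ⟨⟨h2, h3⟩, h4⟩, h5⟩ := ((((h1.eventually h).and (h1.eventually h')).and
    (h1.eventually (Icc_mem_nhds hs.1 hs.2))).and self_mem_nhdsWithin).exists
  have h6 : (0 : ℝ) < t := h5
  rcases cov _ h4 with h7 | h7
  · exact h2 (by nlinarith [mul_pos h6 (mul_self_pos.2 (left_ne_zero_of_mul hδ.ne'))]) h4 h7
  · exact h3 (by nlinarith [mul_pos h6 hδ]) h4 h7

theorem loc (G : Gal P E) (hg : Grd P a u x0) (hg' : Grd P b v y0)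
    (cov : ∀ z ∈ frontier P, Sees P (ln a u x0) z ∨ Sees P (ln b v y0) z) (he : (p, q) ∈ E)
    (hs : s0 ∈ Icc (0 : ℝ) 1) : ∀ᶠ w : (ℝ × ℝ) × ℝ in 𝓝 ((x0, y0), s0),
      (∀ p q r r' σ s l m, Cr P E (ln a u x0) u (ln b v y0) v p q r r' σ s l m →
        0 < σ * -ori p q (ln a u x0) * Gam p (q - p) r r' (ln a u w.1.1) (ln b v w.1.2)) →
      w.2 ∉ K → w.2 ∈ Icc (0 : ℝ) 1 →
        Sees P (ln a u w.1.1) (ln p (q - p) w.2) ∨ Sees P (ln b v w.1.2) (ln p (q - p) w.2) := by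
  have t1 : Tendsto (fun w : (ℝ × ℝ) × ℝ => (w.1.1, w.2)) (𝓝 ((x0, y0), s0)) (𝓝 (x0, s0)) :=
    (show Continuous fun w : (ℝ × ℝ) × ℝ => (w.1.1, w.2) by fun_prop).tendsto _
  have t2 : Tendsto (fun w : (ℝ × ℝ) × ℝ => (w.1.2, w.2)) (𝓝 ((x0, y0), s0)) (𝓝 (y0, s0)) :=
    (show Continuous fun w : (ℝ × ℝ) × ℝ => (w.1.2, w.2) by fun_prop).tendsto _
  have t3 : Tendsto (fun w : (ℝ × ℝ) × ℝ => w.2) (𝓝 ((x0, y0), s0)) (𝓝 s0) :=
    continuous_snd.tendsto _
  have cov' : ∀ s ∈ Icc (0 : ℝ) 1, Sees P (ln a u x0) (ln p (q - p) s) ∨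
      Sees P (ln b v y0) (ln p (q - p) s) := fun s h => cov _ ((G.fr _).2 ⟨_, he, ln_mem h⟩)
  by_cases hK : s0 ∈ K
  · have key : ∀ δ : ℝ, δ ≠ 0 → ∀ᶠ w : (ℝ × ℝ) × ℝ in 𝓝 ((x0, y0), s0), 0 < δ * (w.2 - s0) →
        w.2 ∈ Icc (0 : ℝ) 1 →
        Sees P (ln a u w.1.1) (ln p (q - p) w.2) ∨ Sees P (ln b v w.1.2) (ln p (q - p) w.2) := by
      intro δ hδ
      rcases side_rat G hg he hK hδ with h | h
      · exact (t1.eventually h).mono fun w hw h1 h2 => Or.inl (hw h1 h2)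
      rcases side_rat G hg' he hK hδ with h' | h'
      · exact (t2.eventually h').mono fun w hw h1 h2 => Or.inr (hw h1 h2)
      exact (t3.eventually (h.and h')).mono fun w hw h1 h2 =>
        ((cov' _ h2).elim (hw.1 h1 h2) (hw.2 h1 h2)).elim
    filter_upwards [key 1 one_ne_zero, key (-1) (by norm_num)] with w h1 h2 _ h3 h4
    rcases lt_or_gt_of_ne (show w.2 ≠ s0 from fun h => h3 (h ▸ hK)) with h | h
    · exact h2 (by linarith) h4
    · exact h1 (by linarith) h4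
  have hs' : s0 ∈ Ioo (0 : ℝ) 1 :=
    ⟨lt_of_le_of_ne hs.1 fun h => hK (h ▸ K.zero_mem),
      lt_of_le_of_ne hs.2 fun h => hK (h ▸ K.one_mem)⟩
  have all : ∀ {A : Pt} (δ : ℝ), (∀ᶠ s in 𝓝 s0, s ≠ s0 → s ∈ Icc (0 : ℝ) 1 →
      ¬ Sees P A (ln p (q - p) s)) → HidOn P p q A s0 δ := fun δ h =>
    h.mono fun s h1 h2 => h1 fun h3 => by simp [h3] at h2
  have sq : ∀ {σ x : ℝ}, σ = 1 ∨ σ = -1 → x ≠ 0 → 0 < σ * x * (σ * x) := fun h hx =>
    mul_self_pos.2 (mul_ne_zero (by rcases h with h | h <;> simp [h]) hx)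
  rcases side_irr G hg he hK with h | h | ⟨nc, r, σ, l, hσ, h, hv⟩
  · exact (t1.eventually h).mono fun w hw _ _ h2 => Or.inl (hw h2)
  · rcases side_irr G hg' he hK with h' | h' | ⟨nc', r', σ', m, hσ', h', -⟩
    · exact (t2.eventually h').mono fun w hw _ _ h2 => Or.inr (hw h2)
    · exact (clash hs' cov' (mul_pos one_pos one_pos) (all 1 h) (all 1 h')).elim
    · exact (clash hs' cov' (sq hσ' nc') (all _ h) (mov_hid G h')).elim
  rcases side_irr G hg' he hK with h' | h' | ⟨nc', r', σ', m, hσ', h', hv'⟩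
  · exact (t2.eventually h').mono fun w hw _ _ h2 => Or.inr (hw h2)
  · exact (clash hs' cov' (sq hσ nc) (mov_hid G h) (all _ h')).elim
  have mm : 0 < ori p q (ln a u x0) * ori p q (ln b v y0) :=
    lt_of_le_of_ne (G.one_side he (mem_oseg.2 ⟨s0, hs'.1, hs'.2, rfl⟩) h.see.symm h'.see.symm)
      (mul_ne_zero nc nc').symm
  have hne : σ' = -σ := by
    by_contra h1
    have h2 : σ * σ' = 1 := by
      rcases hσ with h2 | h2 <;> rcases hσ' with h3 | h3 <;> simp_all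
    refine clash hs' cov' (mm.trans_eq ?_) (mov_hid G h) (mov_hid G h')
    linear_combination (-(ori p q (ln a u x0) * ori p q (ln b v y0))) * h2
  subst hne
  have b1 : ∀ᶠ w : (ℝ × ℝ) × ℝ in 𝓝 ((x0, y0), s0),
      0 < -ori p q (ln a u x0) * det (q - p) (r - ln a u w.1.1) := by
    refine ev_pos (φ := fun w : (ℝ × ℝ) × ℝ =>
      -ori p q (ln a u x0) * det (q - p) (r - ln a u w.1.1)) (by fun_prop) ?_
    refine (mul_pos h.l0 (mul_self_pos.2 nc)).trans_eq ?_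
    rw [h.hr]
    simp [ori, det, ln]; ring
  have b2 : ∀ᶠ w : (ℝ × ℝ) × ℝ in 𝓝 ((x0, y0), s0),
      0 < -ori p q (ln a u x0) * det (q - p) (r' - ln b v w.1.2) := by
    refine ev_pos (φ := fun w : (ℝ × ℝ) × ℝ =>
      -ori p q (ln a u x0) * det (q - p) (r' - ln b v w.1.2)) (by fun_prop) ?_
    refine (mul_pos h'.l0 mm).trans_eq ?_
    rw [h'.hr]
    simp [ori, det, ln]; ring
  filter_upwards [t1.eventually hv, t2.eventually hv', b1, b2] with w h1 h2 h3 h4 h5 _ _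
  have h6 := h5 p q r r' σ s0 l m ⟨he, hσ, mm, h, h'⟩
  by_contra h7
  push Not at h7
  have h8 := mul_nonneg (neg_nonneg.2 (not_lt.1 fun h => h7.1 (h1 h))) h4.le
  have h9 := mul_nonneg (neg_nonneg.2 (not_lt.1 fun h => h7.2 (h2 h))) h3.le
  have h10 : Gam p (q - p) r r' (ln a u w.1.1) (ln b v w.1.2) =
      ori (ln a u w.1.1) (ln p (q - p) w.2) r * det (q - p) (r' - ln b v w.1.2) -
      ori (ln b v w.1.2) (ln p (q - p) w.2) r' * det (q - p) (r - ln a u w.1.1) := by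
    generalize ln a u w.1.1 = A
    generalize ln b v w.1.2 = B
    simp [Gam, ori, det, ln]; ring
  rw [h10] at h6
  linarith

theorem exists_grd (G : Gal P E) {g : Pt} (hz : g ∈ frontier P) :
    ∃ a u x0, Grd P a u x0 ∧ ln a u x0 = g := by
  obtain ⟨⟨p, q⟩, he, h⟩ := (G.fr g).1 hz
  obtain ⟨t, t0, t1, ht⟩ := mem_seg.1 h
  have rp := G.rat _ _ he
  have rd := (G.rat _ _ (G.sym _ _ he)).sub rp
  by_cases hK : t ∈ K
  · refine ⟨g, 0, √2, ⟨ht ▸ rp.ln rd hK, ⟨K.zero_mem, K.zero_mem⟩,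
      fun h => irrational_sqrt_two (mem_K.1 h), Eventually.of_forall fun x => ?_,
      fun c c' _ _ => by simp [det]⟩, by simp [ln]⟩
    simpa [ln, Sees, hz] using G.cl.frontier_subset hz
  have hs : t ∈ Ioo (0 : ℝ) 1 :=
    ⟨lt_of_le_of_ne t0 fun h => hK (h ▸ K.zero_mem),
      lt_of_le_of_ne t1 fun h => hK (h ▸ K.one_mem)⟩
  refine ⟨p, q - p, t, ⟨rp, rd, hK, ?_, fun c c' h1 h2 => ?_⟩, ht.symm⟩
  · filter_upwards [Icc_mem_nhds hs.1 hs.2] with x hx
    exact ⟨(G.fr _).2 ⟨_, he, ln_mem hx⟩, (G.sees_edge he).sub (ln_mem hx) (ln_mem ⟨t0, t1⟩)⟩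
  · refine (G.one_side he (mem_oseg.2 ⟨t, hs.1, hs.2, rfl⟩) h1 h2).trans_eq ?_
    simp [ori, det, ln]; ring

theorem main (G : Gal P E) {g h : Pt} (hg : g ∈ frontier P) (hh : h ∈ frontier P)
    (cov : ∀ z ∈ frontier P, Sees P g z ∨ Sees P h z) :
    ∃ A B, RP A ∧ RP B ∧ A ∈ frontier P ∧ B ∈ frontier P ∧
      ∀ z ∈ frontier P, Sees P A z ∨ Sees P B z := by
  obtain ⟨a, u, x0, h1, rfl⟩ := exists_grd G hg
  obtain ⟨b, v, y0, h2, rfl⟩ := exists_grd G hh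
  have h3 : ∀ᶠ z : ℝ × ℝ in 𝓝 (x0, y0), ∀ e ∈ E, ∀ s ∈ Icc (0 : ℝ) 1,
      (∀ p q r r' σ s l m, Cr P E (ln a u x0) u (ln b v y0) v p q r r' σ s l m →
        0 < σ * -ori p q (ln a u x0) * Gam p (q - p) r r' (ln a u z.1) (ln b v z.2)) →
      s ∉ K → s ∈ Icc (0 : ℝ) 1 →
        Sees P (ln a u z.1) (ln e.1 (e.2 - e.1) s) ∨ Sees P (ln b v z.2) (ln e.1 (e.2 - e.1) s) :=
    (eventually_all_finite G.fin).2 fun e he =>
      isCompact_Icc.eventually_forall_of_forall_eventually fun s hs => loc G h1 h2 cov he hs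
  obtain ⟨z, ⟨h4, h5, h6⟩, k1, k2, h7⟩ := exists_rat G h1 h2 cov
    (h3.and (((continuous_fst.tendsto (x0, y0)).eventually h1.near).and
      ((continuous_snd.tendsto (x0, y0)).eventually h2.near)))
  refine ⟨_, _, h1.rp.ln h1.ru k1, h2.rp.ln h2.ru k2, h5.1, h6.1, fun c hc => ?_⟩
  obtain ⟨e, he, h8⟩ := (G.fr c).1 hc
  obtain ⟨t, t0, t1, rfl⟩ := mem_seg.1 h8
  have h9 : IsClosed ({s | Sees P (ln a u z.1) (ln e.1 (e.2 - e.1) s)} ∪
      {s | Sees P (ln b v z.2) (ln e.1 (e.2 - e.1) s)}) :=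
    (closed_sees G.cl continuous_const (by fun_prop)).union
      (closed_sees G.cl continuous_const (by fun_prop))
  have h10 : Icc (0 : ℝ) 1 ⊆ closure (Ioo 0 1 ∩ {x | Irrational x}) := by
    rw [← closure_Ioo zero_ne_one]
    exact closure_minimal (dense_irrational.open_subset_closure_inter isOpen_Ioo) isClosed_closure
  exact closure_minimal (fun s hs => h4 e he s (Ioo_subset_Icc_self hs.1) h7
    (fun h => hs.2 (mem_K.1 h)) (Ioo_subset_Icc_self hs.1)) h9 (h10 ⟨t0, t1⟩)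

theorem exit (G : Gal P E) {z d : Pt} (hz : z ∈ P) (hd : d ≠ 0) :
    ∃ t : ℝ, 0 ≤ t ∧ Sees P z (ln z d t) ∧ ln z d t ∈ frontier P := by
  obtain ⟨C, hC⟩ := G.cpt.isBounded.exists_norm_le
  have n0 : 0 < ‖d‖ := norm_pos_iff.2 hd
  have h1 : IsCompact (Ici (0 : ℝ) ∩ {t | Sees P z (ln z d t)}) := by
    refine (isCompact_Icc (a := 0) (b := (C + ‖z‖) / ‖d‖)).of_isClosed_subset
      (isClosed_Ici.inter (closed_sees G.cl continuous_const (by fun_prop))) fun t ht =>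
      ⟨ht.1, (le_div_iff₀ n0).2 ?_⟩
    have h2 := hC _ (ht.2 (right_mem_segment _ _ _))
    have h3 := norm_sub_le (ln z d t) z
    rw [ln, add_sub_cancel_left, norm_smul, Real.norm_of_nonneg ht.1] at h3
    rw [ln] at h2
    linarith
  obtain ⟨t, ⟨t0, h2⟩, h3⟩ := h1.exists_isGreatest ⟨0, mem_Ici.2 le_rfl, by simpa [Sees, ln] using hz⟩
  refine ⟨t, t0, h2, subset_closure (h2 (right_mem_segment _ _ _)), fun h4 => ?_⟩
  obtain ⟨ε, hε, h5⟩ := Metric.mem_nhds_iff.1 (mem_interior_iff_mem_nhds.1 h4)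
  obtain ⟨s, s0, -, h6⟩ := small (w := d) (Metric.ball_mem_nhds (ln z d t) hε)
  have h7 : ln z d t + s • d = ln z d (t + s) := by simp only [ln]; module
  have on : ∀ x, ori z (z + d) (ln z d x) = 0 := fun x => by simp [ori, det, ln]; ring
  have h8 : Sees P z (ln z d (t + s)) :=
    col3 (p := z) (q := z + d) (by simpa using hd) (ori_left _ _) (on _) (on _) h2
      (((convex_ball _ ε).segment_subset (Metric.mem_ball_self hε) (h7 ▸ h6)).trans h5)
  linarith [h3 ⟨add_nonneg t0 s0.le, h8⟩]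

/-- Two points that see the whole frontier see everything. -/
theorem full (G : Gal P E) {A B : Pt} (cov : ∀ z ∈ frontier P, Sees P A z ∨ Sees P B z) :
    ∀ z ∈ P, Sees P A z ∨ Sees P B z := by
  intro z hz
  refine or_iff_not_imp_left.2 fun hA => ?_
  have hne : A ≠ z := by
    rintro rfl
    exact hA (by simpa [Sees] using hz)
  obtain ⟨t, t0, h1, h2⟩ := exit G hz (sub_ne_zero.2 hne)
  obtain ⟨s, s0, h3, h4⟩ := exit G hz (sub_ne_zero.2 hne.symm)
  have o1 : ori A z (ln z (A - z) t) = 0 := by simp [ori, det, ln]; ring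
  have o2 : ori A z (ln z (z - A) s) = 0 := by simp [ori, det, ln]; ring
  have b1 := (cov _ h2).resolve_left fun h =>
    hA (col3 hne (ori_left _ _) o1 (ori_right _ _) h h1.symm)
  have b2 := (cov _ h4).resolve_left fun h =>
    hA (col3 hne (ori_left _ _) o2 (ori_right _ _) h h3.symm)
  by_cases h5 : ori A z B = 0
  · exact col3 hne h5 o1 (ori_right _ _) b1 h1.symm
  rcases t0.eq_or_lt with rfl | t0
  · simpa [ln] using b1
  rcases s0.eq_or_lt with rfl | s0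
  · simpa [ln] using b2
  refine G.dart ?_ b1 h1 b2 h3
  have h6 : ori B z (ln z (A - z) t) * ori B z (ln z (z - A) s) =
      -(t * s * (ori A z B * ori A z B)) := by
    simp [ori, det, ln]; ring
  rw [h6]
  exact neg_neg_of_pos (mul_pos (mul_pos t0 s0) (mul_self_pos.2 h5))

end Pool.Agent.Lib.MP_1b4b80_lc
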